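import Pool.Agent.H41N.MD.Lin
import Pool.Agent.Q285.HS.Fam

/-!
# The moments up to the order `2 d + 1` of the number of the points of a random member of a linear system over a finite field
-/

set_option autoImplicit false
set_option linter.unusedSectionVars false

namespace H41N.MD

open Finset
open Q282.CL
open Q282MM (gm)
open Q285HS (Sep sm ev AA Idx ph ph_abs loc_ph mom_near Sz HH HH_eq HH_abs gm_zero gm_odd pow_sub_one_le card_AA points NearN near_shift shf)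
open scoped LinearAlgebra.Projectivization

/-- the numerical estimate for one line -/
lemma num_line (p N ℓ R : ℝ) (r k m : ℕ) (hp : 4 ≤ p) (hN : 0 < N) (hR2 : R ^ 2 = N / p) (hRp : p / 2 ≤ R) (hℓ0 : 0 ≤ ℓ) (hℓ : ℓ ≤ 2 * p)
    (hr : 5 ≤ r) (hrm : r < m) (hmk : m ≤ k) :
    (2 / p) ^ r * ℓ ^ m * R ^ (k - m) ≤ 2 ^ r * 4 ^ k * (ℓ ^ 2 / N ^ 2) * (R ^ k / p) := by
  have hp0 : 0 < p := by linarith
  have hR0 : 0 < R := by linarith
  obtain ⟨a, rfl⟩ : ∃ a, r = a + 5 := ⟨r - 5, by omega⟩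
  obtain ⟨b, rfl⟩ : ∃ b, m = b + 4 := ⟨m - 4, by omega⟩
  obtain ⟨c, rfl⟩ : ∃ c, k = c + (b + 4) := ⟨k - (b + 4), by omega⟩
  rw [Nat.add_sub_cancel]
  have hR4 : R ^ 4 = N ^ 2 / p ^ 2 := by
    have : R ^ 4 = (R ^ 2) ^ 2 := by ring
    rw [this, hR2, div_pow]
  have h1 : 2 ^ (a + 5) * 4 ^ (c + (b + 4)) * (ℓ ^ 2 / N ^ 2) * (R ^ (c + (b + 4)) / p) =
      2 ^ (a + 5) * 4 ^ (c + (b + 4)) * ℓ ^ 2 * R ^ b / p ^ 3 * R ^ c := by
    rw [pow_add R c, pow_add R b, hR4]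
    field_simp
  rw [h1]
  refine mul_le_mul_of_nonneg_right ?_ (by positivity)
  rw [div_pow, le_div_iff₀ (by positivity)]
  have h2 : ℓ ^ (b + 4) ≤ ℓ ^ 2 * (2 * p) ^ (b + 2) := by
    have : ℓ ^ (b + 4) = ℓ ^ 2 * ℓ ^ (b + 2) := by ring
    rw [this]
    exact mul_le_mul_of_nonneg_left (pow_le_pow_left₀ hℓ0 hℓ _) (by positivity)
  have h3 : (p / 2) ^ b ≤ R ^ b := pow_le_pow_left₀ (by positivity) hRp b
  have h4 : 2 ^ (a + 5) / p ^ (a + 5) * ℓ ^ (b + 4) * p ^ 3 ≤ 2 ^ (a + 5) / p ^ (a + 5) * (ℓ ^ 2 * (2 * p) ^ (b + 2)) * p ^ 3 := by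
    refine mul_le_mul_of_nonneg_right (mul_le_mul_of_nonneg_left h2 (by positivity)) (by positivity)
  refine h4.trans ?_
  have h5 : 2 ^ (a + 5) * 4 ^ (c + (b + 4)) * ℓ ^ 2 * (p / 2) ^ b ≤ 2 ^ (a + 5) * 4 ^ (c + (b + 4)) * ℓ ^ 2 * R ^ b :=
    mul_le_mul_of_nonneg_left h3 (by positivity)
  refine le_trans ?_ h5
  have h6 : 2 ^ (a + 5) / p ^ (a + 5) * (ℓ ^ 2 * (2 * p) ^ (b + 2)) * p ^ 3 = (2 ^ (a + 5) * ℓ ^ 2 * (2 ^ (b + 2) * p ^ b)) * (1 / p ^ a) := by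
    rw [mul_pow]
    field_simp
    ring
  have h7 : 2 ^ (a + 5) * 4 ^ (c + (b + 4)) * ℓ ^ 2 * (p / 2) ^ b = (2 ^ (a + 5) * ℓ ^ 2 * (4 ^ (c + (b + 4)) / 2 ^ b * p ^ b)) := by
    rw [div_pow]
    field_simp
  rw [h6, h7]
  have h8 : (2 : ℝ) ^ (b + 2) ≤ 4 ^ (c + (b + 4)) / 2 ^ b := by
    rw [le_div_iff₀ (by positivity)]
    have e1 : (2 : ℝ) ^ (b + 2) * 2 ^ b = 4 ^ (b + 1) := by
      rw [show (4 : ℝ) = 2 ^ 2 by norm_num, ← pow_mul, ← pow_add]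
      congr 1
      ring
    rw [e1]
    exact pow_le_pow_right₀ (by norm_num) (by omega)
  have h9 : 1 / p ^ a ≤ 1 := by
    rw [div_le_one (by positivity)]
    exact one_le_pow₀ (by linarith)
  have h10 : 0 ≤ 2 ^ (a + 5) * ℓ ^ 2 * (2 ^ (b + 2) * p ^ b) := by positivity
  calc (2 ^ (a + 5) * ℓ ^ 2 * (2 ^ (b + 2) * p ^ b)) * (1 / p ^ a) ≤ (2 ^ (a + 5) * ℓ ^ 2 * (2 ^ (b + 2) * p ^ b)) * 1 :=
        mul_le_mul_of_nonneg_left h9 h10
    _ = 2 ^ (a + 5) * ℓ ^ 2 * (2 ^ (b + 2) * p ^ b) := mul_one _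
    _ ≤ _ := mul_le_mul_of_nonneg_left (mul_le_mul_of_nonneg_right h8 (by positivity)) (by positivity)

variable {n : ℕ} {J : Type} [Fintype J] [DecidableEq J] {d : J → ℕ} {g : J → MvPolynomial (Fin (n + 1)) ℤ} {W : Set (MvPolynomial (Fin (n + 1)) ℤ)}

open Classical in
/-- the difference of the moments in the two models -/
lemma diff_bd {p : ℕ} [hp : Fact p.Prime] {d₀ : ℕ} (hd₀ : 4 ≤ d₀) (hd : ∀ j, d₀ ≤ d j) (R E : ℝ) (hp4 : (4 : ℝ) ≤ p) (hR0 : 0 ≤ R)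
    (hR2 : R ^ 2 = ((AA g W p).card : ℝ) / p) (hRp : (p : ℝ) / 2 ≤ R) (hE : 0 ≤ E) (k : ℕ) (hk : k ≤ 2 * d₀ + 1)
    (hV : ∀ A ⊆ AA g W p, ∀ j ≤ k, |av (fun c : ℙ (ZMod p) (Fin (n + 1) → ZMod p) → ZMod p => sm (fe _ (ZMod p)) A (fun _ => ph p) c ^ j)| ≤ E * R ^ j) :
    |av (fun c => sm (ev (d := d) g p) (AA g W p) (fun _ => ph p) c ^ k) -
      av (fun c : ℙ (ZMod p) (Fin (n + 1) → ZMod p) → ZMod p => sm (fe _ (ZMod p)) (AA g W p) (fun _ => ph p) c ^ k)| ≤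
      2 ^ (d₀ + 1) * 8 ^ k * 4 * E * (R ^ k / p) := by
  have hp0 : (0 : ℝ) < p := by linarith
  have hq := qs (g := g) (W := W) (p := p) (d := d) (by omega) hd
  have h1 := cmp hq (by omega) (fun _ => ph p) (fun _ z => ph_abs p z) (q := 2 / p) (by positivity) (fun _ => av_ph p) k hk
  refine h1.trans ?_
  obtain ⟨N, hN⟩ : ∃ N : ℝ, N = ((AA g W p).card : ℝ) := ⟨_, rfl⟩
  rw [← hN] at hR2
  have hR0' : 0 < R := by linarith
  have hN0 : 0 < N := by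
    have h2 : 0 < N / p := by
      rw [← hR2]
      positivity
    exact (div_pos_iff_of_pos_right hp0).1 h2
  obtain ⟨T, hT⟩ : ∃ T : ℝ, T = 2 ^ (d₀ + 1) * 4 ^ k * (R ^ k / p) / N ^ 2 * 2 * E := ⟨_, rfl⟩
  have hT0 : 0 ≤ T := by
    rw [hT]
    positivity
  have h2 : ∀ L ∈ LL g W p, (∑ m ∈ range (k + 1), if d₀ + 1 < m then (k.choose m : ℝ) * ((2 * (2 / (p : ℝ)) ^ (d₀ + 1) * (L.card : ℝ) ^ m) *
      |av (fun c : ℙ (ZMod p) (Fin (n + 1) → ZMod p) → ZMod p => sm (fe _ (ZMod p)) (AA g W p \ L) (fun _ => ph p) c ^ (k - m))|) else 0) ≤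
      2 ^ k * ((L.card : ℝ) ^ 2 * T) := by
    intro L hL
    have h3 : ∀ m ∈ range (k + 1), (if d₀ + 1 < m then (k.choose m : ℝ) * ((2 * (2 / (p : ℝ)) ^ (d₀ + 1) * (L.card : ℝ) ^ m) *
      |av (fun c : ℙ (ZMod p) (Fin (n + 1) → ZMod p) → ZMod p => sm (fe _ (ZMod p)) (AA g W p \ L) (fun _ => ph p) c ^ (k - m))|) else 0) ≤
        (k.choose m : ℝ) * ((L.card : ℝ) ^ 2 * T) := by
      intro m hm
      rw [mem_range] at hm
      split_ifs with hrm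
      · refine mul_le_mul_of_nonneg_left ?_ (Nat.cast_nonneg _)
        have h4 := hV (AA g W p \ L) sdiff_subset (k - m) (by omega)
        have h5 := num_line p N L.card R (d₀ + 1) k m hp4 hN0 hR2 hRp (Nat.cast_nonneg _) (by exact_mod_cast LL_card hL) (by omega) hrm (by omega)
        refine (mul_le_mul_of_nonneg_left h4 (by positivity)).trans ?_
        have e1 : 2 * (2 / (p : ℝ)) ^ (d₀ + 1) * (L.card : ℝ) ^ m * (E * R ^ (k - m)) =
            ((2 / (p : ℝ)) ^ (d₀ + 1) * (L.card : ℝ) ^ m * R ^ (k - m)) * (2 * E) := by ring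
        rw [e1]
        refine (mul_le_mul_of_nonneg_right h5 (by positivity)).trans (le_of_eq ?_)
        rw [hT]
        ring
      · positivity
    refine (sum_le_sum h3).trans ?_
    rw [← sum_mul]
    refine mul_le_mul_of_nonneg_right ?_ (by positivity)
    have h6 := Nat.sum_range_choose k
    exact_mod_cast h6.le
  refine (sum_le_sum h2).trans ?_
  rw [← mul_sum, ← sum_mul]
  have h3 : ∑ L ∈ LL g W p, (L.card : ℝ) ^ 2 ≤ 2 * N ^ 2 := by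
    rw [hN]
    exact_mod_cast LL_sum (g := g) (W := W) (p := p)
  have h4 : 2 ^ k * ((∑ L ∈ LL g W p, (L.card : ℝ) ^ 2) * T) ≤ 2 ^ k * ((2 * N ^ 2) * T) :=
    mul_le_mul_of_nonneg_left (mul_le_mul_of_nonneg_right h3 hT0) (by positivity)
  refine h4.trans (le_of_eq ?_)
  rw [hT]
  have h5 : (8 : ℝ) ^ k = 2 ^ k * 4 ^ k := by
    rw [← mul_pow]
    norm_num
  rw [h5]
  field_simp
  ring

open Classical in
/-- **the local moments up to the order `2 d₀ + 1` are close to those of the normal law** -/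
theorem loc_mom {D p₀ : ℕ} {C₀ : ℝ} (hD : 3 ≤ D) (hsz : Sz g W D p₀ C₀) (k d₀ : ℕ) (hd₀ : 4 ≤ d₀) (hd : ∀ j, d₀ ≤ d j) (hk : k ≤ 2 * d₀ + 1) :
    ∃ (K : ℝ) (p₁ : ℕ), 1 ≤ K ∧ ∀ p : ℕ, p.Prime → p₁ ≤ p → ∀ j ≤ k,
      |mn (fun p c => HH (d := d) g W D p c ^ j) p - (gm j : ℝ)| ≤ K / Real.sqrt p := by
  obtain ⟨C, hC, hmom⟩ := mom_near k
  obtain ⟨G, hG⟩ : ∃ G : ℝ, G = ∑ j ∈ range (k + 1), (gm j : ℝ) := ⟨_, rfl⟩
  have hGj : ∀ j ≤ k, (gm j : ℝ) ≤ G := fun j hj => by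
    rw [hG]
    exact single_le_sum (f := fun j => (gm j : ℝ)) (fun i _ => Nat.cast_nonneg _) (mem_range.2 (by omega))
  have hG0 : 0 ≤ G := (Nat.cast_nonneg _).trans (hGj 0 (by omega))
  obtain ⟨C₁, hC₁⟩ : ∃ C₁ : ℝ, C₁ = |C₀| + 1 := ⟨_, rfl⟩
  have hC₁0 : 1 ≤ C₁ := by
    rw [hC₁]
    linarith [abs_nonneg C₀]
  have hCC : C₀ ≤ C₁ := by
    rw [hC₁]
    linarith [le_abs_self C₀]
  obtain ⟨C₂, hC₂⟩ : ∃ C₂ : ℝ, C₂ = 2 ^ (d₀ + 1) * 8 ^ k * 4 * (G + C) := ⟨_, rfl⟩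
  have hC₂0 : 0 ≤ C₂ := by
    rw [hC₂]
    positivity
  obtain ⟨k₀, hk₀⟩ := exists_nat_ge ((4 * C₁) ^ 2)
  refine ⟨(C + C₂) * 2 ^ k + G * (k * 2 ^ k * (2 * C₁ + 2)), max p₀ (k₀ + 4), ?_, ?_⟩
  · have h1 : (1 : ℝ) ≤ 2 ^ k := one_le_pow₀ (by norm_num)
    have h2 : 0 ≤ G * (k * 2 ^ k * (2 * C₁ + 2)) := by positivity
    nlinarith
  intro p hpr hp j hj
  have : Fact p.Prime := ⟨hpr⟩
  have hpp₀ : p₀ ≤ p := (le_max_left _ _).trans hp
  have hpk : k₀ + 4 ≤ p := (le_max_right _ _).trans hp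
  have hp4 : (4 : ℝ) ≤ p := by exact_mod_cast (by omega : 4 ≤ p)
  have hp0 : (0 : ℝ) < p := by linarith
  have hs0 : 0 < Real.sqrt p := Real.sqrt_pos.2 hp0
  have hss : Real.sqrt p * Real.sqrt p = p := Real.mul_self_sqrt hp0.le
  have hs4 : 4 * C₁ ≤ Real.sqrt p := by
    refine Real.le_sqrt_of_sq_le (hk₀.trans ?_)
    exact_mod_cast (by omega : k₀ ≤ p)
  have hs1 : 1 ≤ Real.sqrt p := by linarith
  -- the number of the points
  obtain ⟨N, hN⟩ : ∃ N : ℝ, N = ((AA g W p).card : ℝ) := ⟨_, rfl⟩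
  have hpD : 0 < (p : ℝ) ^ D := by positivity
  have hN1 : |N / (p : ℝ) ^ D - 1| ≤ 2 * C₁ / Real.sqrt p := by
    have h1 := hsz.amb p hpr hpp₀
    have h2 := hsz.bas p hpr hpp₀
    have h3 := card_AA g W p
    rw [← hN] at h3
    have h4 : (0 : ℝ) ≤ points p (W ∪ Set.range g) := Nat.cast_nonneg _
    have h5 : C₀ * ((p : ℝ) ^ D / Real.sqrt p) ≤ C₁ * ((p : ℝ) ^ D / Real.sqrt p) := mul_le_mul_of_nonneg_right hCC (by positivity)
    have h6 : N / (p : ℝ) ^ D - 1 = (N - (p : ℝ) ^ D) / (p : ℝ) ^ D := by field_simp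
    rw [h6, abs_div, abs_of_pos hpD, div_le_iff₀ hpD]
    have h7 : 2 * C₁ / Real.sqrt p * (p : ℝ) ^ D = 2 * (C₁ * ((p : ℝ) ^ D / Real.sqrt p)) := by ring
    have h8 : 0 ≤ C₁ * ((p : ℝ) ^ D / Real.sqrt p) := by positivity
    rw [h7, abs_le]
    rw [abs_le] at h1
    constructor <;> linarith [h1.1, h1.2]
  have hN2 : |N / (p : ℝ) ^ D - 1| ≤ 1 / 2 := by
    refine hN1.trans ?_
    rw [div_le_iff₀ hs0]
    linarith
  have hN3 : (p : ℝ) ^ D / 2 ≤ N ∧ N ≤ 2 * (p : ℝ) ^ D := by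
    rw [abs_le] at hN2
    have h1 : 1 / 2 ≤ N / (p : ℝ) ^ D := by linarith [hN2.1]
    have h2 : N / (p : ℝ) ^ D ≤ 2 := by linarith [hN2.2]
    rw [le_div_iff₀ hpD] at h1
    rw [div_le_iff₀ hpD] at h2
    constructor <;> linarith
  have hNp3 : (p : ℝ) ^ 3 / 2 ≤ N := by
    have h1 : (p : ℝ) ^ 3 ≤ (p : ℝ) ^ D := pow_le_pow_right₀ (by linarith) hD
    linarith [hN3.1]
  have hNp : (p : ℝ) ≤ N := by
    have h0 : (16 : ℝ) ≤ (p : ℝ) * p := by nlinarith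
    have h1 : (p : ℝ) * 16 ≤ (p : ℝ) ^ 3 := by
      have e1 : (p : ℝ) ^ 3 = p * (p * p) := by ring
      rw [e1]
      exact mul_le_mul_of_nonneg_left h0 hp0.le
    linarith
  obtain ⟨s, hs⟩ : ∃ s : ℝ, s = Real.sqrt p ^ (D - 1) := ⟨_, rfl⟩
  have hs_pos : 0 < s := by
    rw [hs]
    positivity
  have hs2 : s ^ 2 = (p : ℝ) ^ (D - 1) := by
    rw [hs, ← pow_mul, mul_comm, pow_mul, pow_two, hss]
  have hsp : Real.sqrt p ≤ s := by
    rw [hs]
    exact le_self_pow₀ hs1 (by omega)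
  have hpDD : (p : ℝ) ^ D = p * (p : ℝ) ^ (D - 1) := by
    rw [← pow_succ']
    congr 1
    omega
  obtain ⟨r, hr⟩ : ∃ r : ℝ, r = Real.sqrt (N / p) := ⟨_, rfl⟩
  have hNp1 : 1 ≤ N / p := by
    rw [le_div_iff₀ hp0]
    linarith
  have hr1 : 1 ≤ r := by
    rw [hr]
    exact Real.one_le_sqrt.2 hNp1
  have hr2 : r ^ 2 = N / p := by
    rw [hr, Real.sq_sqrt (by linarith)]
  have hrp : (p : ℝ) / 2 ≤ r := by
    rw [hr]
    refine Real.le_sqrt_of_sq_le ?_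
    rw [le_div_iff₀ hp0]
    nlinarith [pow_pos hp0 3]
  have hrs : r ≤ 2 * s := by
    refine abs_le_of_sq_le_sq' ?_ (by positivity) |>.2
    rw [mul_pow, hs2, hr2, div_le_iff₀ hp0]
    have h1 := hN3.2
    rw [hpDD] at h1
    have h2 : 0 ≤ (p : ℝ) * (p : ℝ) ^ (D - 1) := by positivity
    nlinarith
  have hN0 : 0 ≤ N := by linarith
  obtain ⟨σ, hσ⟩ : ∃ σ : ℝ, σ = 1 / (p : ℝ) * (1 - 1 / p) := ⟨_, rfl⟩
  have hp1 : 1 / (p : ℝ) ≤ 1 := by
    rw [div_le_one hp0]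
    linarith
  have hp10 : 0 < 1 / (p : ℝ) := by positivity
  have hσ0 : 0 ≤ σ := by
    rw [hσ]
    exact mul_nonneg hp10.le (by linarith)
  have hσ1 : σ ≤ 1 / p := by
    rw [hσ]
    nlinarith
  -- the independent model
  have hfull : ∀ A ⊆ AA g W p, ∀ i ≤ k, |av (fun c : ℙ (ZMod p) (Fin (n + 1) → ZMod p) → ZMod p => sm (fe _ (ZMod p)) A (fun _ => ph p) c ^ i) -
      (gm i : ℝ) * (A.card * σ) ^ (i / 2)| ≤ C * r ^ (i - 1) := by
    intro A hA i hi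
    have hAN : (A.card : ℝ) ≤ N := by
      rw [hN]
      exact_mod_cast card_le_card hA
    refine hmom _ _ _ (fe _ (ZMod p)) (fun _ => ph p) k (p : ℝ) r σ (by linarith) hr1 hσ0 hσ1 A (fun S _ _ z => ⟨z, fun _ _ => rfl⟩)
      (fun t _ => by rw [hσ]; exact loc_ph p) ?_ ?_ i hi hi
    · rw [hr2]
      have : N / p = N * (1 / p) := by ring
      rw [this]
      exact mul_le_mul hAN hσ1 hσ0 hN0
    · rw [hr2]
      have : (p : ℝ) * (N / p) = N := by field_simp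
      rw [this]
      exact hAN
  have hm := hfull (AA g W p) (Subset.refl _) j hj
  have hdiff := diff_bd (g := g) (W := W) (p := p) (d := d) hd₀ hd r (G + C) hp4 (by linarith) (by rw [hr2, hN]) hrp (by linarith) j (hj.trans hk)
    (fun A hA i hi => by
      have h1 := hfull A hA i (hi.trans hj)
      have hAN : (A.card : ℝ) ≤ N := by
        rw [hN]
        exact_mod_cast card_le_card hA
      have h2 : (A.card : ℝ) * σ ≤ r ^ 2 := by
        rw [hr2]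
        have : N / p = N * (1 / p) := by ring
        rw [this]
        exact mul_le_mul hAN hσ1 hσ0 hN0
      have h3 : (gm i : ℝ) * (A.card * σ) ^ (i / 2) ≤ G * r ^ i := by
        have h4 : ((A.card : ℝ) * σ) ^ (i / 2) ≤ r ^ i := by
          refine (pow_le_pow_left₀ (by positivity) h2 (i / 2)).trans ?_
          rw [← pow_mul]
          exact pow_le_pow_right₀ hr1 (by omega)
        exact mul_le_mul (hGj i (hi.trans hj)) h4 (by positivity) hG0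
      have h4 : C * r ^ (i - 1) ≤ C * r ^ i := mul_le_mul_of_nonneg_left (pow_le_pow_right₀ hr1 (by omega)) (by linarith)
      have h5 : 0 ≤ (gm i : ℝ) * (A.card * σ) ^ (i / 2) := by positivity
      have h6 := abs_sub_abs_le_abs_sub (av fun c : ℙ (ZMod p) (Fin (n + 1) → ZMod p) → ZMod p => sm (fe _ (ZMod p)) A (fun _ => ph p) c ^ i)
        ((gm i : ℝ) * (A.card * σ) ^ (i / 2))
      rw [abs_of_nonneg h5] at h6
      linarith)
  rw [← hN] at hm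
  have hdiff' : |av (fun c => sm (ev (d := d) g p) (AA g W p) (fun _ => ph p) c ^ j) -
      av (fun c : ℙ (ZMod p) (Fin (n + 1) → ZMod p) → ZMod p => sm (fe _ (ZMod p)) (AA g W p) (fun _ => ph p) c ^ j)| ≤ C₂ * (r ^ j / p) := by
    refine hdiff.trans (mul_le_mul_of_nonneg_right ?_ (by positivity))
    rw [hC₂]
    have h1 : (8 : ℝ) ^ j ≤ 8 ^ k := pow_le_pow_right₀ (by norm_num) hj
    have h2 : 0 ≤ G + C := by linarith
    gcongr
  have e0 : mn (fun p c => HH (d := d) g W D p c ^ j) p = av (fun c => sm (ev (d := d) g p) (AA g W p) (fun _ => ph p) c ^ j) / s ^ j := by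
    rw [mn_eq]
    have h1 : (fun c => HH (d := d) g W D p c ^ j) = fun c => (1 / s ^ j) * sm (ev (d := d) g p) (AA g W p) (fun _ => ph p) c ^ j := by
      funext c
      rw [HH_eq, ← hs, div_pow]
      ring
    rw [h1, av_mul]
    ring
  rw [e0]
  have hsj : 0 < s ^ j := pow_pos hs_pos j
  obtain ⟨v, hv⟩ : ∃ v : ℝ, v = N / (p : ℝ) ^ D * (1 - 1 / p) := ⟨_, rfl⟩
  have hv0 : 0 ≤ v := by
    rw [hv]
    exact mul_nonneg (by positivity) (by linarith)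
  have hv2 : v ≤ 2 := by
    have h1 : N / (p : ℝ) ^ D ≤ 2 := by
      rw [div_le_iff₀ hpD]
      exact hN3.2
    rw [hv]
    have h2 : 0 ≤ N / (p : ℝ) ^ D := by positivity
    nlinarith
  have hv1 : |v - 1| ≤ (2 * C₁ + 2) / Real.sqrt p := by
    have h1 : v - 1 = (N / (p : ℝ) ^ D - 1) - N / (p : ℝ) ^ D * (1 / p) := by
      rw [hv]
      ring
    rw [h1]
    refine (abs_sub _ _).trans ?_
    have h2 : |N / (p : ℝ) ^ D * (1 / p)| ≤ 2 / Real.sqrt p := by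
      rw [abs_of_nonneg (by positivity)]
      have h3 : N / (p : ℝ) ^ D ≤ 2 := by
        rw [div_le_iff₀ hpD]
        exact hN3.2
      have h4 : 1 / (p : ℝ) ≤ 1 / Real.sqrt p := by
        refine one_div_le_one_div_of_le hs0 ?_
        nlinarith
      calc N / (p : ℝ) ^ D * (1 / p) ≤ 2 * (1 / Real.sqrt p) := mul_le_mul h3 h4 hp10.le (by norm_num)
        _ = _ := by ring
    have h3 : (2 * C₁ + 2) / Real.sqrt p = 2 * C₁ / Real.sqrt p + 2 / Real.sqrt p := by ring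
    rw [h3]
    linarith
  -- the main term
  have hmain : |(gm j : ℝ) * (N * σ) ^ (j / 2) / s ^ j - (gm j : ℝ)| ≤ G * (k * 2 ^ k * (2 * C₁ + 2)) / Real.sqrt p := by
    by_cases he : Even j
    · obtain ⟨l, hl⟩ := he
      have hjl : j = 2 * l := by omega
      have h1 : j / 2 = l := by omega
      have h2 : (N * σ) ^ (j / 2) / s ^ j = v ^ l := by
        rw [h1, hjl, pow_mul, hs2, ← div_pow]
        congr 1
        rw [hv, hσ, hpDD]
        field_simp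
      have h3 : (gm j : ℝ) * (N * σ) ^ (j / 2) / s ^ j - (gm j : ℝ) = (gm j : ℝ) * (v ^ l - 1) := by
        rw [mul_div_assoc, h2]
        ring
      rw [h3, abs_mul, Nat.abs_cast]
      have h4 := pow_sub_one_le v hv0 hv2 l
      have h5 : (l : ℝ) * 2 ^ l * |v - 1| ≤ k * 2 ^ k * ((2 * C₁ + 2) / Real.sqrt p) := by
        have h6 : (l : ℝ) ≤ k := by exact_mod_cast (by omega : l ≤ k)
        have h7 : (2 : ℝ) ^ l ≤ 2 ^ k := pow_le_pow_right₀ (by norm_num) (by omega)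
        have h8 := abs_nonneg (v - 1)
        gcongr
      calc (gm j : ℝ) * |v ^ l - 1| ≤ G * (k * 2 ^ k * ((2 * C₁ + 2) / Real.sqrt p)) :=
            mul_le_mul (hGj j hj) (h4.trans h5) (abs_nonneg _) hG0
        _ = _ := by ring
    · rw [gm_odd he]
      simp only [Nat.cast_zero, zero_mul, zero_div, sub_zero, abs_zero]
      positivity
  have herr : |av (fun c => sm (ev (d := d) g p) (AA g W p) (fun _ => ph p) c ^ j) / s ^ j - (gm j : ℝ) * (N * σ) ^ (j / 2) / s ^ j| ≤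
      (C + C₂) * 2 ^ k / Real.sqrt p := by
    rcases Nat.eq_zero_or_pos j with hj0 | hj0
    · subst hj0
      simp only [pow_zero, div_one, Nat.zero_div, mul_one]
      rw [av_const, gm_zero, Nat.cast_one, sub_self, abs_zero]
      positivity
    · rw [← sub_div, abs_div, abs_of_pos hsj, div_le_iff₀ hsj]
      have h0 := abs_sub_le (av fun c => sm (ev (d := d) g p) (AA g W p) (fun _ => ph p) c ^ j)
        (av fun c : ℙ (ZMod p) (Fin (n + 1) → ZMod p) → ZMod p => sm (fe _ (ZMod p)) (AA g W p) (fun _ => ph p) c ^ j) ((gm j : ℝ) * (N * σ) ^ (j / 2))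
      refine h0.trans ?_
      have h1 : r ^ (j - 1) ≤ 2 ^ k * s ^ (j - 1) := by
        refine (pow_le_pow_left₀ (by linarith) hrs (j - 1)).trans ?_
        rw [mul_pow]
        refine mul_le_mul_of_nonneg_right ?_ (by positivity)
        exact pow_le_pow_right₀ (by norm_num) (by omega)
      have h1' : r ^ j ≤ 2 ^ k * s ^ j := by
        refine (pow_le_pow_left₀ (by linarith) hrs j).trans ?_
        rw [mul_pow]
        refine mul_le_mul_of_nonneg_right ?_ (by positivity)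
        exact pow_le_pow_right₀ (by norm_num) (by omega)
      have h2 : s ^ j = s * s ^ (j - 1) := by
        rw [← pow_succ']
        congr 1
        omega
      have h3 : C * 2 ^ k / Real.sqrt p * s ^ j = C * (2 ^ k * s ^ (j - 1)) * (s / Real.sqrt p) := by
        rw [h2]
        ring
      have h4 : 1 ≤ s / Real.sqrt p := by
        rw [le_div_iff₀ hs0]
        linarith
      have h5 : C * r ^ (j - 1) ≤ C * (2 ^ k * s ^ (j - 1)) := mul_le_mul_of_nonneg_left h1 (by linarith)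
      have h6 : 0 ≤ C * (2 ^ k * s ^ (j - 1)) := by positivity
      have h7 : C₂ * (r ^ j / p) ≤ C₂ * 2 ^ k / Real.sqrt p * s ^ j := by
        have e1 : r ^ j / p ≤ 2 ^ k * s ^ j / Real.sqrt p := by
          refine div_le_div₀ (by positivity) h1' hs0 ?_
          nlinarith
        calc C₂ * (r ^ j / p) ≤ C₂ * (2 ^ k * s ^ j / Real.sqrt p) := mul_le_mul_of_nonneg_left e1 hC₂0
          _ = _ := by ring
      have h8 : (C + C₂) * 2 ^ k / Real.sqrt p * s ^ j = C * 2 ^ k / Real.sqrt p * s ^ j + C₂ * 2 ^ k / Real.sqrt p * s ^ j := by ring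
      rw [h8, h3]
      have h9 : C * (2 ^ k * s ^ (j - 1)) ≤ C * (2 ^ k * s ^ (j - 1)) * (s / Real.sqrt p) := le_mul_of_one_le_right h6 h4
      linarith
  have hfin := abs_sub_le (av (fun c => sm (ev (d := d) g p) (AA g W p) (fun _ => ph p) c ^ j) / s ^ j)
    ((gm j : ℝ) * (N * σ) ^ (j / 2) / s ^ j) (gm j : ℝ)
  have h9 : ((C + C₂) * 2 ^ k + G * (k * 2 ^ k * (2 * C₁ + 2))) / Real.sqrt p =
      (C + C₂) * 2 ^ k / Real.sqrt p + G * (k * 2 ^ k * (2 * C₁ + 2)) / Real.sqrt p := by ring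
  rw [h9]
  linarith

theorem near_HH {D p₀ : ℕ} {C₀ : ℝ} (hD : 3 ≤ D) (hsz : Sz g W D p₀ C₀) (k d₀ : ℕ) (hd₀ : 4 ≤ d₀) (hd : ∀ j, d₀ ≤ d j) (hk : k ≤ 2 * d₀ + 1) :
    ∃ (K : ℝ) (p₁ : ℕ), NearN (HH (d := d) g W D) k (n + 1) p₁ K := by
  obtain ⟨K, p₁, hK, h⟩ := loc_mom hD hsz k d₀ hd₀ hd hk
  refine ⟨K, p₁, hK, fun p hp u => (HH_abs g W D p hp u).trans ?_, h⟩
  exact mul_le_mul_of_nonneg_right hK (by positivity)

/-- the moments with the centre `c` -/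
theorem near_tr {D p₀ : ℕ} {C₀ : ℝ} (hD : 3 ≤ D) (hsz : Sz g W D p₀ C₀) (c : ℕ → ℝ)
    (hc : ∀ p : ℕ, p.Prime → p₀ ≤ p → |shf g W D c p| ≤ C₀ / Real.sqrt p) (k d₀ : ℕ) (hd₀ : 4 ≤ d₀) (hd : ∀ j, d₀ ≤ d j) (hk : k ≤ 2 * d₀ + 1) :
    ∃ (K : ℝ) (p₁ : ℕ), NearN (fun p u => HH (d := d) g W D p u + shf g W D c p) k (n + 1) p₁ K := by
  obtain ⟨K, p₁, h⟩ := near_HH hD hsz k d₀ hd₀ hd hk
  exact near_shift h _ p₀ C₀ hc

end H41N.MD
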