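import Pool.Agent.Q285.HS.Sep

/-!
# Sums of functions of values which are independent up to linear relations along the lines of a linear space

The moments of such a sum are compared with those of the sum of independent summands.
-/

set_option autoImplicit false
set_option linter.unusedSectionVars false

namespace H41N.MD

open Finset
open Q282.CL
open Q285HS (Sep sm)

section peel

variable {ι K B : Type} [AddCommGroup K] [Fintype K] [AddCommGroup B] [Fintype B]

lemma av_shift (g : K → ℝ) (c₀ : K) : av (fun c => g (c + c₀)) = av g := by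
  unfold av
  congr 1
  exact Fintype.sum_equiv (Equiv.addRight c₀) _ _ fun c => rfl

lemma av_comm {α β : Type} [Fintype α] [Fintype β] (g : α → β → ℝ) : av (fun a => av fun b => g a b) = av fun b => av fun a => g a b := by
  unfold av
  simp only [sum_div]
  rw [sum_comm]
  refine sum_congr rfl fun b _ => sum_congr rfl fun a _ => ?_
  ring

lemma av_mul_right {α : Type} [Fintype α] (g : α → ℝ) (x : ℝ) : av (fun a => g a * x) = av g * x := by
  have : (fun a => g a * x) = fun a => x * g a := by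
    funext a
    ring
  rw [this, av_mul, mul_comm]

/-- one value is independent of the others -/
lemma peel (e : ι → K →+ B) (a : ι) (T : Finset ι) (G : K → ℝ) (hG : ∀ c c', (∀ t ∈ T, e t c' = 0) → G (c + c') = G c)
    (h : ∀ z : B, ∃ c', (∀ t ∈ T, e t c' = 0) ∧ e a c' = z) (f : B → ℝ) : av (fun c => G c * f (e a c)) = av G * av f := by
  choose c hc1 hc2 using h
  have h1 : ∀ z : B, av (fun x => G x * f (e a x)) = av fun x => G x * f (e a x + z) := by
    intro z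
    rw [← av_shift (fun x => G x * f (e a x)) (c z)]
    congr 1
    funext x
    rw [hG x (c z) (hc1 z), map_add, hc2]
  have hB : Nonempty B := ⟨0⟩
  have h2 : av (fun x => G x * f (e a x)) = av fun _ : B => av fun x => G x * f (e a x) := (av_const _).symm
  rw [h2]
  have h3 : (fun _ : B => av fun x => G x * f (e a x)) = fun z => av fun x => G x * f (e a x + z) := funext h1
  rw [h3, av_comm]
  have h4 : ∀ x, av (fun z => G x * f (e a x + z)) = G x * av f := by
    intro x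
    rw [av_mul]
    congr 1
    rw [← av_shift f (e a x)]
    congr 1
    funext z
    rw [add_comm]
  simp only [h4]
  exact av_mul_right G (av f)

variable [DecidableEq ι]

lemma split (e : ι → K →+ B) (S₁ : Finset ι) (f : ι → B → ℝ) : ∀ S₂ : Finset ι, Disjoint S₁ S₂ →
    (∀ z : ι → B, ∃ c, (∀ t ∈ S₁, e t c = 0) ∧ ∀ t ∈ S₂, e t c = z t) →
    av (fun c => (∏ t ∈ S₁, f t (e t c)) * ∏ t ∈ S₂, f t (e t c)) = av (fun c => ∏ t ∈ S₁, f t (e t c)) * ∏ t ∈ S₂, av (f t) := by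
  intro S₂
  induction S₂ using Finset.induction_on with
  | empty =>
    intro _ _
    simp
  | insert a S₂ ha ih =>
    intro hd h
    rw [disjoint_insert_right] at hd
    have h1 : (fun c => (∏ t ∈ S₁, f t (e t c)) * ∏ t ∈ insert a S₂, f t (e t c)) =
        fun c => ((∏ t ∈ S₁, f t (e t c)) * ∏ t ∈ S₂, f t (e t c)) * f a (e a c) := by
      funext c
      rw [prod_insert ha]
      ring
    rw [h1, peel e a (S₁ ∪ S₂) (fun c => (∏ t ∈ S₁, f t (e t c)) * ∏ t ∈ S₂, f t (e t c)), prod_insert ha,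
      ih hd.2 (fun z => ?_)]
    · ring
    · obtain ⟨c, hc1, hc2⟩ := h z
      exact ⟨c, hc1, fun t ht => hc2 t (mem_insert_of_mem ht)⟩
    · intro c c' hc'
      have h2 : ∀ t ∈ S₁ ∪ S₂, e t (c + c') = e t c := fun t ht => by rw [map_add, hc' t ht, add_zero]
      congr 1
      · exact prod_congr rfl fun t ht => by rw [h2 t (mem_union_left _ ht)]
      · exact prod_congr rfl fun t ht => by rw [h2 t (mem_union_right _ ht)]
    · intro z
      obtain ⟨c, hc1, hc2⟩ := h (Function.update (fun _ => 0) a z)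
      refine ⟨c, fun t ht => ?_, ?_⟩
      · rcases mem_union.1 ht with ht | ht
        · exact hc1 t ht
        · have hta : t ≠ a := by
            rintro rfl
            exact ha ht
          rw [hc2 t (mem_insert_of_mem ht), Function.update_of_ne hta]
      · rw [hc2 a (mem_insert_self a S₂), Function.update_self]

/-- all values on `S` are possible -/
def Sur (e : ι → K →+ B) (S : Finset ι) : Prop := ∀ z : ι → B, ∃ c : K, ∀ t ∈ S, e t c = z t

lemma Sur.mono {e : ι → K →+ B} {S S' : Finset ι} (h : Sur e S) (hS : S' ⊆ S) : Sur e S' := fun z => by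
  obtain ⟨c, hc⟩ := h z
  exact ⟨c, fun t ht => hc t (hS ht)⟩

lemma av_sur {e : ι → K →+ B} {S : Finset ι} (h : Sur e S) (f : ι → B → ℝ) :
    av (fun c => ∏ t ∈ S, f t (e t c)) = ∏ t ∈ S, av (f t) := by
  have h1 := split e ∅ f S (disjoint_empty_left S) fun z => by
    obtain ⟨c, hc⟩ := h z
    exact ⟨c, fun t ht => absurd ht (notMem_empty t), hc⟩
  have hK : Nonempty K := ⟨0⟩
  simp only [prod_empty, one_mul] at h1
  rw [h1, av_const, one_mul]

end peel

section models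

variable {ι K B : Type} [AddCommGroup K] [Fintype K] [AddCommGroup B] [Fintype B] [Fintype ι] [DecidableEq ι]

/-- the model with independent values -/
def fe (ι B : Type) [AddCommGroup B] (t : ι) : (ι → B) →+ B := Pi.evalAddMonoidHom (fun _ => B) t

/-- the model in which the values outside `L` are replaced by independent values -/
def me (e : ι → K →+ B) (L : Finset ι) (t : ι) : K × (ι → B) →+ B :=
  if t ∈ L then (e t).comp (AddMonoidHom.fst _ _) else (fe ι B t).comp (AddMonoidHom.snd _ _)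

lemma me_in (e : ι → K →+ B) {L : Finset ι} {t : ι} (h : t ∈ L) (x : K × (ι → B)) : me e L t x = e t x.1 := by
  unfold me
  rw [if_pos h]
  rfl

lemma me_out (e : ι → K →+ B) {L : Finset ι} {t : ι} (h : t ∉ L) (x : K × (ι → B)) : me e L t x = x.2 t := by
  unfold me
  rw [if_neg h]
  rfl

lemma sur_fe (S : Finset ι) : Sur (fe ι B) S := fun z => ⟨z, fun _ _ => rfl⟩

lemma sur_me {e : ι → K →+ B} {L S : Finset ι} (h : Sur e (S ∩ L)) : Sur (me e L) S := fun z => by
  obtain ⟨c, hc⟩ := h z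
  refine ⟨(c, z), fun t ht => ?_⟩
  by_cases htL : t ∈ L
  · rw [me_in e htL]
    exact hc t (mem_inter.2 ⟨ht, htL⟩)
  · rw [me_out e htL]

lemma av_fst {α β : Type} [Fintype α] [Fintype β] [Nonempty β] (g : α → ℝ) : av (fun x : α × β => g x.1) = av g := by
  unfold av
  rw [Fintype.sum_prod_type, Fintype.card_prod]
  simp only [sum_const, card_univ, nsmul_eq_mul]
  rw [← mul_sum]
  push_cast
  have h1 : (Fintype.card β : ℝ) ≠ 0 := by exact_mod_cast Fintype.card_ne_zero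
  rw [mul_comm (Fintype.card α : ℝ), mul_div_mul_left _ _ h1]

lemma av_prod {α β : Type} [Fintype α] [Fintype β] (g : α → ℝ) (h : β → ℝ) : av (fun x : α × β => g x.1 * h x.2) = av g * av h := by
  unfold av
  rw [Fintype.sum_prod_type, Fintype.card_prod, div_mul_div_comm, Fintype.sum_mul_sum]
  push_cast
  rfl

variable [DecidableEq B]

lemma fib {k : ℕ} (b : Fin k → ι) : ∃ q : ι → ℕ, ∀ h : ι → ℝ, ∏ j, h (b j) = ∏ t ∈ univ.image b, h t ^ q t := by
  refine ⟨fun t => (univ.filter fun j => b j = t).card, fun h => ?_⟩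
  have h1 : ∀ j ∈ (univ : Finset (Fin k)), b j ∈ univ.image b := fun j _ => mem_image_of_mem b (mem_univ j)
  rw [← prod_fiberwise_of_maps_to h1]
  refine prod_congr rfl fun t _ => ?_
  have h2 : ∀ j ∈ univ.filter (fun j => b j = t), h (b j) = h t := fun j hj => by rw [(mem_filter.1 hj).2]
  rw [prod_congr rfl h2, prod_const]

lemma sm_pow (e : ι → K →+ B) (A : Finset ι) (ψ : ι → B → ℝ) (k : ℕ) (c : K) :
    sm e A ψ c ^ k = ∑ b ∈ Fintype.piFinset fun _ : Fin k => A, ∏ j, ψ (b j) (e (b j) c) := by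
  have h2 := prod_univ_sum (fun _ : Fin k => A) (fun _ t => ψ t (e t c))
  rw [prod_const, card_univ, Fintype.card_fin] at h2
  unfold sm
  rw [h2]

lemma image_sub {k : ℕ} {A : Finset ι} {b : Fin k → ι} (hb : b ∈ Fintype.piFinset fun _ : Fin k => A) : univ.image b ⊆ A := by
  intro t ht
  obtain ⟨j, _, rfl⟩ := mem_image.1 ht
  exact Fintype.mem_piFinset.1 hb j

lemma image_card {k : ℕ} (b : Fin k → ι) : (univ.image b).card ≤ k := card_image_le.trans (by rw [card_univ, Fintype.card_fin])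

/-- the moments only depend on the models through the means -/
lemma same_pow {K₁ K₂ : Type} [AddCommGroup K₁] [Fintype K₁] [AddCommGroup K₂] [Fintype K₂] (e₁ : ι → K₁ →+ B) (e₂ : ι → K₂ →+ B) (A : Finset ι)
    (k : ℕ) (h₁ : ∀ S ⊆ A, S.card ≤ k → Sur e₁ S) (h₂ : ∀ S ⊆ A, S.card ≤ k → Sur e₂ S) (ψ : ι → B → ℝ) :
    av (fun c => sm e₁ A ψ c ^ k) = av (fun c => sm e₂ A ψ c ^ k) := by
  simp only [sm_pow]
  rw [av_sum, av_sum]
  refine sum_congr rfl fun b hb => ?_
  obtain ⟨q, hq⟩ := fib b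
  have e1 : ∀ c, ∏ j, ψ (b j) (e₁ (b j) c) = ∏ t ∈ univ.image b, (fun t z => ψ t z ^ q t) t (e₁ t c) := fun c => hq fun t => ψ t (e₁ t c)
  have e2 : ∀ c, ∏ j, ψ (b j) (e₂ (b j) c) = ∏ t ∈ univ.image b, (fun t z => ψ t z ^ q t) t (e₂ t c) := fun c => hq fun t => ψ t (e₂ t c)
  simp only [e1, e2]
  rw [av_sur (h₁ _ (image_sub hb) (image_card b)) fun t z => ψ t z ^ q t, av_sur (h₂ _ (image_sub hb) (image_card b)) fun t z => ψ t z ^ q t]

/-- at most `M` values are independent up to relations between more than `r` values on a line -/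
structure Qs (e : ι → K →+ B) (A : Finset ι) (𝓛 : Finset (Finset ι)) (r M : ℕ) : Prop where
  sub : ∀ L ∈ 𝓛, L ⊆ A
  sep : ∀ S ⊆ A, S.card ≤ M → (∀ L ∈ 𝓛, (S ∩ L).card ≤ r) → Sur e S
  off : ∀ S ⊆ A, S.card ≤ M → ∀ L ∈ 𝓛, r < (S ∩ L).card → ∀ z : ι → B, ∃ c, (∀ t ∈ S ∩ L, e t c = 0) ∧ ∀ t ∈ S \ L, e t c = z t
  one : ∀ S ⊆ A, S.card ≤ M → ∀ L ∈ 𝓛, ∀ L' ∈ 𝓛, r < (S ∩ L).card → r < (S ∩ L').card → L = L'

variable {e : ι → K →+ B} {A : Finset ι} {𝓛 : Finset (Finset ι)} {r M : ℕ}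

lemma Qs.small (h : Qs e A 𝓛 r M) (S : Finset ι) (hS : S ⊆ A) (hM : S.card ≤ M) (hr : S.card ≤ r) : Sur e S :=
  h.sep S hS hM fun _ _ => (card_le_card inter_subset_left).trans hr

lemma tuple_id (h : Qs e A 𝓛 r M) (S : Finset ι) (hS : S ⊆ A) (hM : S.card ≤ M) (f : ι → B → ℝ) :
    av (fun c => ∏ t ∈ S, f t (e t c)) - ∏ t ∈ S, av (f t) =
      ∑ L ∈ 𝓛, (av (fun x => ∏ t ∈ S, f t (me e L t x)) - ∏ t ∈ S, av (f t)) := by
  have hgood : ∀ L, (S ∩ L).card ≤ r → av (fun x => ∏ t ∈ S, f t (me e L t x)) - ∏ t ∈ S, av (f t) = 0 := by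
    intro L hL
    have h1 : Sur e (S ∩ L) := h.small _ (inter_subset_left.trans hS) ((card_le_card inter_subset_left).trans hM) hL
    rw [av_sur (sur_me h1) f, sub_self]
  by_cases hb : ∃ L₀ ∈ 𝓛, r < (S ∩ L₀).card
  · obtain ⟨L₀, hL₀, hr⟩ := hb
    rw [sum_eq_single L₀]
    · congr 1
      have hsplit : S = (S ∩ L₀) ∪ (S \ L₀) := by
        ext t
        simp only [mem_union, mem_inter, mem_sdiff]
        tauto
      have hdis : Disjoint (S ∩ L₀) (S \ L₀) := by
        rw [disjoint_left]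
        intro t ht ht'
        exact (mem_sdiff.1 ht').2 (mem_inter.1 ht).2
      have hoff := h.off S hS hM L₀ hL₀ hr
      have e1 : (fun c => ∏ t ∈ S, f t (e t c)) = fun c => (∏ t ∈ S ∩ L₀, f t (e t c)) * ∏ t ∈ S \ L₀, f t (e t c) := by
        funext c
        rw [← prod_union hdis, ← hsplit]
      have e2 : (fun x => ∏ t ∈ S, f t (me e L₀ t x)) = fun x => (∏ t ∈ S ∩ L₀, f t (me e L₀ t x)) * ∏ t ∈ S \ L₀, f t (me e L₀ t x) := by
        funext c
        rw [← prod_union hdis, ← hsplit]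
      rw [e1, e2, split e (S ∩ L₀) f (S \ L₀) hdis hoff, split (me e L₀) (S ∩ L₀) f (S \ L₀) hdis fun z => ?_]
      · congr 1
        have e3 : (fun x : K × (ι → B) => ∏ t ∈ S ∩ L₀, f t (me e L₀ t x)) = fun x => (fun c => ∏ t ∈ S ∩ L₀, f t (e t c)) x.1 := by
          funext x
          exact prod_congr rfl fun t ht => by rw [me_in e (mem_inter.1 ht).2]
        rw [e3, av_fst fun c => ∏ t ∈ S ∩ L₀, f t (e t c)]
      · refine ⟨(0, z), fun t ht => ?_, fun t ht => ?_⟩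
        · rw [me_in e (mem_inter.1 ht).2, map_zero]
        · rw [me_out e (mem_sdiff.1 ht).2]
    · intro L hL hne
      refine hgood L ?_
      by_contra hcon
      rw [not_le] at hcon
      exact hne (h.one S hS hM L hL L₀ hL₀ hcon hr)
    · exact fun h' => absurd hL₀ h'
  · push Not at hb
    rw [av_sur (h.sep S hS hM hb) f, sub_self]
    exact (sum_eq_zero fun L hL => hgood L (hb L hL)).symm

lemma mom_id (h : Qs e A 𝓛 r M) (ψ : ι → B → ℝ) (k : ℕ) (hk : k ≤ M) :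
    av (fun c => sm e A ψ c ^ k) - av (fun c => sm (fe ι B) A ψ c ^ k) =
      ∑ L ∈ 𝓛, (av (fun x => sm (me e L) A ψ x ^ k) - av (fun c => sm (fe ι B) A ψ c ^ k)) := by
  simp only [sm_pow, av_sum]
  rw [← sum_sub_distrib]
  have h1 : ∀ L ∈ 𝓛, (∑ b ∈ Fintype.piFinset fun _ : Fin k => A, av fun x => ∏ j, ψ (b j) (me e L (b j) x)) -
      ∑ b ∈ Fintype.piFinset fun _ : Fin k => A, av (fun c => ∏ j, ψ (b j) (fe ι B (b j) c)) =
      ∑ b ∈ Fintype.piFinset fun _ : Fin k => A, ((av fun x => ∏ j, ψ (b j) (me e L (b j) x)) - av fun c => ∏ j, ψ (b j) (fe ι B (b j) c)) :=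
    fun L _ => (sum_sub_distrib _ _).symm
  rw [sum_congr rfl h1, sum_comm]
  refine sum_congr rfl fun b hb => ?_
  obtain ⟨q, hq⟩ := fib b
  have e1 : ∀ c, ∏ j, ψ (b j) (e (b j) c) = ∏ t ∈ univ.image b, (fun t z => ψ t z ^ q t) t (e t c) := fun c => hq fun t => ψ t (e t c)
  have e2 : ∀ c, ∏ j, ψ (b j) (fe ι B (b j) c) = ∏ t ∈ univ.image b, (fun t z => ψ t z ^ q t) t (fe ι B t c) := fun c => hq fun t => ψ t (fe ι B t c)
  have e3 : ∀ L x, ∏ j, ψ (b j) (me e L (b j) x) = ∏ t ∈ univ.image b, (fun t z => ψ t z ^ q t) t (me e L t x) := fun L x => hq fun t => ψ t (me e L t x)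
  simp only [e1, e2, e3]
  rw [av_sur (sur_fe (univ.image b)) fun t z => ψ t z ^ q t]
  exact tuple_id h (univ.image b) (image_sub hb) ((image_card b).trans hk) fun t z => ψ t z ^ q t

lemma mixed_pow {L : Finset ι} (hL : L ⊆ A) (ψ : ι → B → ℝ) (k : ℕ) :
    av (fun x => sm (me e L) A ψ x ^ k) =
      ∑ m ∈ range (k + 1), (k.choose m : ℝ) * (av (fun c => sm e L ψ c ^ m) * av (fun c => sm (fe ι B) (A \ L) ψ c ^ (k - m))) := by
  have h1 : ∀ x : K × (ι → B), sm (me e L) A ψ x = sm e L ψ x.1 + sm (fe ι B) (A \ L) ψ x.2 := by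
    intro x
    unfold sm
    rw [← sum_sdiff hL, add_comm]
    congr 1
    · exact sum_congr rfl fun t ht => by rw [me_in e ht]
    · exact sum_congr rfl fun t ht => by rw [me_out e (mem_sdiff.1 ht).2]; rfl
  have h2 : (fun x : K × (ι → B) => sm (me e L) A ψ x ^ k) = fun x => ∑ m ∈ range (k + 1), (k.choose m : ℝ) *
      ((fun c => sm e L ψ c ^ m) x.1 * (fun c => sm (fe ι B) (A \ L) ψ c ^ (k - m)) x.2) := by
    funext x
    rw [h1, add_pow]
    exact sum_congr rfl fun m _ => by ring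
  rw [h2, av_sum]
  refine sum_congr rfl fun m _ => ?_
  rw [av_mul]
  exact congrArg _ (av_prod (fun c => sm e L ψ c ^ m) fun c => sm (fe ι B) (A \ L) ψ c ^ (k - m))

lemma full_pow {L : Finset ι} (hL : L ⊆ A) (ψ : ι → B → ℝ) (k : ℕ) :
    av (fun x => sm (fe ι B) A ψ x ^ k) =
      ∑ m ∈ range (k + 1), (k.choose m : ℝ) * (av (fun c => sm (fe ι B) L ψ c ^ m) * av (fun c => sm (fe ι B) (A \ L) ψ c ^ (k - m))) := by
  rw [← mixed_pow (e := fe ι B) hL ψ k]
  exact same_pow _ _ A k (fun S _ _ => sur_fe S) (fun S _ _ => sur_me (sur_fe _)) ψ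

lemma prod_le_prod_sub {k : ℕ} (b : Fin k → ι) (T : Finset ι) (hT : T ⊆ univ.image b) (ψ : ι → ℝ) (h1 : ∀ t, |ψ t| ≤ 1) :
    |∏ j, ψ (b j)| ≤ ∏ t ∈ T, |ψ t| := by
  obtain ⟨q, hq⟩ : ∃ q : ι → ℕ, ∀ t, q t = (univ.filter fun j => b j = t).card := ⟨_, fun _ => rfl⟩
  have hfib : ∏ j, |ψ (b j)| = ∏ t ∈ univ.image b, |ψ t| ^ q t := by
    have h1 : ∀ j ∈ (univ : Finset (Fin k)), b j ∈ univ.image b := fun j _ => mem_image_of_mem b (mem_univ j)
    rw [← prod_fiberwise_of_maps_to h1]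
    refine prod_congr rfl fun t _ => ?_
    have h2 : ∀ j ∈ univ.filter (fun j => b j = t), |ψ (b j)| = |ψ t| := fun j hj => by rw [(mem_filter.1 hj).2]
    rw [prod_congr rfl h2, prod_const, hq]
  rw [abs_prod, hfib, ← prod_sdiff hT]
  have h2 : ∏ t ∈ univ.image b \ T, |ψ t| ^ q t ≤ 1 := prod_le_one (fun t _ => by positivity) fun t _ => pow_le_one₀ (abs_nonneg _) (h1 t)
  have h3 : ∏ t ∈ T, |ψ t| ^ q t ≤ ∏ t ∈ T, |ψ t| := by
    refine prod_le_prod (fun t _ => by positivity) fun t ht => ?_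
    refine pow_le_of_le_one (abs_nonneg _) (h1 t) ?_
    rw [hq]
    obtain ⟨j, _, hj⟩ := mem_image.1 (hT ht)
    exact card_ne_zero.2 ⟨j, mem_filter.2 ⟨mem_univ j, hj⟩⟩
  have h4 : 0 ≤ ∏ t ∈ T, |ψ t| ^ q t := prod_nonneg fun t _ => by positivity
  calc (∏ t ∈ univ.image b \ T, |ψ t| ^ q t) * ∏ t ∈ T, |ψ t| ^ q t ≤ 1 * ∏ t ∈ T, |ψ t| ^ q t := mul_le_mul_of_nonneg_right h2 h4
    _ ≤ _ := by rw [one_mul]; exact h3

lemma tuple_bd {K₁ : Type} [AddCommGroup K₁] [Fintype K₁] {e₁ : ι → K₁ →+ B} {L : Finset ι} (h₁ : ∀ S ⊆ L, S.card ≤ r → Sur e₁ S) {k : ℕ}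
    {b : Fin k → ι} (hb : b ∈ Fintype.piFinset fun _ : Fin k => L) (hr : r ≤ (univ.image b).card) (ψ : ι → B → ℝ) (hψ : ∀ t z, |ψ t z| ≤ 1) {q : ℝ}
    (hq : ∀ t, av (fun z => |ψ t z|) ≤ q) : |av (fun c => ∏ j, ψ (b j) (e₁ (b j) c))| ≤ q ^ r := by
  obtain ⟨T, hT, hTr⟩ := exists_subset_card_eq hr
  refine (abs_av_le _).trans ?_
  refine (av_mono fun c => prod_le_prod_sub b T hT (fun t => ψ t (e₁ t c)) fun t => hψ t _).trans ?_
  rw [av_sur (h₁ T (hT.trans (image_sub hb)) hTr.le) fun t z => |ψ t z|]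
  refine (prod_le_prod (fun t _ => av_nonneg fun z => abs_nonneg _) fun t _ => hq t).trans ?_
  rw [prod_const, hTr]

lemma line_bd (h : Qs e A 𝓛 r M) (hrM : r ≤ M) {L : Finset ι} (hL : L ∈ 𝓛) (ψ : ι → B → ℝ) (hψ : ∀ t z, |ψ t z| ≤ 1) {q : ℝ} (hq0 : 0 ≤ q)
    (hq : ∀ t, av (fun z => |ψ t z|) ≤ q) (m : ℕ) :
    |av (fun c => sm e L ψ c ^ m) - av (fun c => sm (fe ι B) L ψ c ^ m)| ≤ 2 * q ^ r * (L.card : ℝ) ^ m := by
  have hLA := h.sub L hL
  simp only [sm_pow, av_sum]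
  rw [← sum_sub_distrib]
  refine (abs_sum_le_sum_abs _ _).trans ?_
  have h1 : ∀ b ∈ Fintype.piFinset fun _ : Fin m => L,
      |av (fun c => ∏ j, ψ (b j) (e (b j) c)) - av (fun c => ∏ j, ψ (b j) (fe ι B (b j) c))| ≤ 2 * q ^ r := by
    intro b hb
    rcases Nat.lt_or_ge (univ.image b).card r with hlt | hge
    · obtain ⟨p, hp⟩ := fib b
      have e1 : ∀ c, ∏ j, ψ (b j) (e (b j) c) = ∏ t ∈ univ.image b, (fun t z => ψ t z ^ p t) t (e t c) := fun c => hp fun t => ψ t (e t c)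
      have e2 : ∀ c, ∏ j, ψ (b j) (fe ι B (b j) c) = ∏ t ∈ univ.image b, (fun t z => ψ t z ^ p t) t (fe ι B t c) :=
        fun c => hp fun t => ψ t (fe ι B t c)
      simp only [e1, e2]
      have hsub := (image_sub hb).trans hLA
      rw [av_sur (sur_fe (univ.image b)) fun t z => ψ t z ^ p t, av_sur (h.small _ hsub (hlt.le.trans hrM) hlt.le) fun t z => ψ t z ^ p t, sub_self,
        abs_zero]
      positivity
    · have h2 := tuple_bd (r := r) (fun S hS hSr => h.small S (hS.trans hLA) (hSr.trans hrM) hSr) hb hge ψ hψ hq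
      have h3 := tuple_bd (r := r) (fun S (_ : S ⊆ L) _ => sur_fe S) hb hge ψ hψ hq
      refine (abs_sub _ _).trans ?_
      linarith
  refine (sum_le_sum h1).trans ?_
  rw [sum_const, Fintype.card_piFinset, nsmul_eq_mul, prod_const, card_univ, Fintype.card_fin]
  push_cast
  rw [mul_comm]

/-- **The comparison of the moments.** -/
theorem cmp (h : Qs e A 𝓛 r M) (hrM : r ≤ M) (ψ : ι → B → ℝ) (hψ : ∀ t z, |ψ t z| ≤ 1) {q : ℝ} (hq0 : 0 ≤ q)
    (hq : ∀ t, av (fun z => |ψ t z|) ≤ q) (k : ℕ) (hk : k ≤ M) :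
    |av (fun c => sm e A ψ c ^ k) - av (fun c => sm (fe ι B) A ψ c ^ k)| ≤
      ∑ L ∈ 𝓛, ∑ m ∈ range (k + 1), if r < m then (k.choose m : ℝ) * ((2 * q ^ r * (L.card : ℝ) ^ m) * |av (fun c => sm (fe ι B) (A \ L) ψ c ^ (k - m))|)
        else 0 := by
  rw [mom_id h ψ k hk]
  refine (abs_sum_le_sum_abs _ _).trans (sum_le_sum fun L hL => ?_)
  rw [mixed_pow (h.sub L hL) ψ k, full_pow (h.sub L hL) ψ k, ← sum_sub_distrib]
  refine (abs_sum_le_sum_abs _ _).trans (sum_le_sum fun m hm => ?_)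
  rw [← mul_sub, ← sub_mul, abs_mul, abs_mul, Nat.abs_cast]
  split_ifs with hrm
  · refine mul_le_mul_of_nonneg_left (mul_le_mul_of_nonneg_right (line_bd h hrM hL ψ hψ hq0 hq m) (abs_nonneg _)) (Nat.cast_nonneg _)
  · rw [not_lt] at hrm
    have h1 : av (fun c => sm e L ψ c ^ m) = av (fun c => sm (fe ι B) L ψ c ^ m) :=
      same_pow _ _ L m (fun S hS hSm => h.small S (hS.trans (h.sub L hL)) (hSm.trans (hrm.trans hrM)) (hSm.trans hrm)) (fun S _ _ => sur_fe S) ψ
    rw [h1, sub_self, abs_zero, zero_mul, mul_zero]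

end models

end H41N.MD
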