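import Pool.Agent.Q285.HS.Pts

/-!
# Points in projective space which fail to impose independent conditions on forms

At most `2 d + 1` points of which no `d + 2` are on a line impose independent conditions on the forms of degree `d`.
-/

set_option autoImplicit false
set_option linter.unusedSectionVars false

namespace H41N.MD

open Finset MvPolynomial
open Pool.Agent.Y722.HS (Mon mev form eval_form)
open Q285HS (toFs eval_hom rep_ne exists_form)
open scoped LinearAlgebra.Projectivization

variable {n : ℕ} {F : Type} [Field F]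

/-- the point `R` is on the line through `P` and `Q` -/
def On (P Q R : ℙ F (Fin (n + 1) → F)) : Prop := R.rep ∈ Submodule.span F {P.rep, Q.rep}

/-- there is a form of degree `D` which is not zero at `a` and is zero on `T` -/
def Sp (D : ℕ) (a : ℙ F (Fin (n + 1) → F)) (T : Finset (ℙ F (Fin (n + 1) → F))) : Prop :=
  ∃ P : MvPolynomial (Fin (n + 1)) F, P.IsHomogeneous D ∧ eval a.rep P ≠ 0 ∧ ∀ t ∈ T, eval t.rep P = 0

lemma on_left (P Q : ℙ F (Fin (n + 1) → F)) : On P Q P := Submodule.subset_span (Set.mem_insert _ _)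

lemma on_right (P Q : ℙ F (Fin (n + 1) → F)) : On P Q Q := Submodule.subset_span (Set.mem_insert_of_mem _ rfl)

lemma li {P Q : ℙ F (Fin (n + 1) → F)} (h : P ≠ Q) : LinearIndependent F ![P.rep, Q.rep] := by
  have h1 : (![P.rep, Q.rep] : Fin 2 → Fin (n + 1) → F) = Projectivization.rep ∘ ![P, Q] := by
    funext i
    fin_cases i <;> rfl
  rw [← Projectivization.independent_pair_iff_ne, Projectivization.independent_iff] at h
  rw [h1]
  exact h

lemma fr {P Q : ℙ F (Fin (n + 1) → F)} (h : P ≠ Q) : Module.finrank F (Submodule.span F ({P.rep, Q.rep} : Set (Fin (n + 1) → F))) = 2 := by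
  rw [← Matrix.range_cons_cons_empty _ _ ![]]
  simpa using finrank_span_eq_card (li h)

lemma span_eq {P Q A B : ℙ F (Fin (n + 1) → F)} (hPQ : P ≠ Q) (hAB : A ≠ B) (hA : On P Q A) (hB : On P Q B) :
    Submodule.span F ({A.rep, B.rep} : Set (Fin (n + 1) → F)) = Submodule.span F {P.rep, Q.rep} := by
  refine Submodule.eq_of_le_of_finrank_eq ?_ (by rw [fr hPQ, fr hAB])
  rw [Submodule.span_le]
  rintro x (rfl | hx)
  · exact hA
  · rw [Set.mem_singleton_iff] at hx
    subst hx
    exact hB

lemma on_iff {P Q A B : ℙ F (Fin (n + 1) → F)} (hPQ : P ≠ Q) (hAB : A ≠ B) (hA : On P Q A) (hB : On P Q B) (R : ℙ F (Fin (n + 1) → F)) :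
    On A B R ↔ On P Q R := by
  unfold On
  rw [span_eq hPQ hAB hA hB]

lemma hom_form {D : ℕ} (c : Mon n D → F) : (form c).IsHomogeneous D := by
  unfold form
  refine IsHomogeneous.sum _ _ _ fun m _ => ?_
  have h1 := (isHomogeneous_C (Fin (n + 1)) (c m)).mul (IsHomogeneous.prod univ (fun i => (X i : MvPolynomial (Fin (n + 1)) F) ^ (m.1 i : ℕ))
    (fun i => (m.1 i : ℕ)) fun i _ => isHomogeneous_X_pow i _)
  rwa [m.2, zero_add] at h1

lemma sp_small {D : ℕ} (a : ℙ F (Fin (n + 1) → F)) (T : Finset (ℙ F (Fin (n + 1) → F))) (hT : T.card ≤ D) (ha : a ∉ T) : Sp D a T := by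
  obtain ⟨c, h1, h2⟩ := exists_form a T hT ha
  refine ⟨form c, hom_form c, ?_, fun t ht => ?_⟩
  · rw [eval_form]
    exact h1
  · rw [eval_form]
    exact h2 t ht

/-- a hyperplane which contains a line and not a point outside the line -/
lemma hyper {P Q R : ℙ F (Fin (n + 1) → F)} (h : ¬ On P Q R) :
    ∃ l : MvPolynomial (Fin (n + 1)) F, l.IsHomogeneous 1 ∧ eval R.rep l ≠ 0 ∧ ∀ T, On P Q T → eval T.rep l = 0 := by
  obtain ⟨f, hf1, hf2⟩ := Submodule.exists_dual_map_eq_bot_of_notMem h inferInstance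
  have hev : ∀ x : Fin (n + 1) → F, eval x (∑ i, C (f (Pi.single i 1)) * X i) = f x := by
    intro x
    rw [map_sum, LinearMap.pi_apply_eq_sum_univ f x]
    refine sum_congr rfl fun i _ => ?_
    rw [map_mul, eval_C, eval_X, smul_eq_mul, mul_comm]
    congr 2
    funext j
    simp [Pi.single_apply, eq_comm]
  refine ⟨∑ i, C (f (Pi.single i 1)) * X i, IsHomogeneous.sum _ _ _ fun i _ => isHomogeneous_C_mul_X _ _, ?_, fun T hT => ?_⟩
  · rw [hev]
    exact hf1
  · rw [hev]
    have h1 : f T.rep ∈ (Submodule.span F {P.rep, Q.rep}).map f := Submodule.mem_map_of_mem hT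
    rw [hf2] at h1
    exact (Submodule.mem_bot F).1 h1

open Classical in
/-- **points without many on a line impose independent conditions** -/
theorem sep_line (d : ℕ) : ∀ S : Finset (ℙ F (Fin (n + 1) → F)), S.card ≤ 2 * d + 1 →
    (∀ P ∈ S, ∀ Q ∈ S, P ≠ Q → (S.filter (On P Q)).card ≤ d + 1) → ∀ a ∈ S, Sp d a (S.erase a) := by
  induction d with
  | zero =>
    intro S hS _ a ha
    refine sp_small a _ ?_ (notMem_erase a S)
    rw [card_erase_of_mem ha]
    omega
  | succ d ih =>
    intro S hS hl a ha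
    rcases Nat.lt_or_ge (d + 2) S.card with hbig | hsm
    · have hne : S.offDiag.Nonempty := by
        have h1 : 1 < S.card := by omega
        obtain ⟨x, hx, y, hy, hxy⟩ := one_lt_card.1 h1
        exact ⟨(x, y), mem_offDiag.2 ⟨hx, hy, hxy⟩⟩
      obtain ⟨⟨P, Q⟩, hPQ, hmax⟩ := exists_max_image S.offDiag (fun x => (S.filter (On x.1 x.2)).card) hne
      obtain ⟨hP, hQ, hPQne⟩ := mem_offDiag.1 hPQ
      dsimp only at hP hQ hPQne hmax
      obtain ⟨L, hL⟩ : ∃ L, L = S.filter (On P Q) := ⟨_, rfl⟩
      obtain ⟨S', hS'⟩ : ∃ S', S' = S.filter (fun R => ¬ On P Q R) := ⟨_, rfl⟩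
      have hcard : L.card + S'.card = S.card := by
        rw [hL, hS']
        exact card_filter_add_card_filter_not _
      have hL2 : 2 ≤ L.card := by
        have h1 : ({P, Q} : Finset _) ⊆ L := by
          intro x hx
          rw [mem_insert, mem_singleton] at hx
          rw [hL, mem_filter]
          rcases hx with rfl | rfl
          · exact ⟨hP, on_left _ _⟩
          · exact ⟨hQ, on_right _ _⟩
        have h2 := card_le_card h1
        rwa [card_pair hPQne] at h2
      have hLd : L.card ≤ d + 2 := by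
        rw [hL]
        exact hl P hP Q hQ hPQne
      have hS'l : ∀ P' ∈ S', ∀ Q' ∈ S', P' ≠ Q' → (S'.filter (On P' Q')).card ≤ d + 1 := by
        intro P' hP' Q' hQ' hne'
        by_contra hcon
        rw [hS', mem_filter] at hP' hQ'
        have h1 := hmax (P', Q') (mem_offDiag.2 ⟨hP'.1, hQ'.1, hne'⟩)
        dsimp only at h1
        have h2 : (S'.filter (On P' Q')).card ≤ (S.filter (On P' Q')).card := by
          refine card_le_card (filter_subset_filter _ ?_)
          rw [hS']
          exact filter_subset _ _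
        have h3 : (S'.filter (On P' Q')).card ≤ S'.card := card_filter_le _ _
        rw [← hL] at h1
        omega
      have hI : ∀ b ∈ S', ∃ G : MvPolynomial (Fin (n + 1)) F, G.IsHomogeneous (d + 1) ∧ eval b.rep G ≠ 0 ∧ (∀ t, On P Q t → eval t.rep G = 0) ∧
          ∀ t ∈ S', t ≠ b → eval t.rep G = 0 := by
        intro b hb
        obtain ⟨G, hG1, hG2, hG3⟩ := ih S' (by omega) hS'l b hb
        have hb' := hb
        rw [hS', mem_filter] at hb'
        obtain ⟨l, hl1, hl2, hl3⟩ := hyper hb'.2
        refine ⟨G * l, hG1.mul hl1, ?_, fun t ht => ?_, fun t ht htb => ?_⟩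
        · rw [map_mul]
          exact mul_ne_zero hG2 hl2
        · rw [map_mul, hl3 t ht, mul_zero]
        · rw [map_mul, hG3 t (mem_erase.2 ⟨htb, ht⟩), zero_mul]
      choose! G hG1 hG2 hG3 hG4 using hI
      by_cases haL : On P Q a
      · have haL' : a ∈ L := by
          rw [hL, mem_filter]
          exact ⟨ha, haL⟩
        obtain ⟨A, hA1, hA2, hA3⟩ := sp_small (D := d + 1) a (L.erase a) (by rw [card_erase_of_mem haL']; omega) (notMem_erase a L)
        refine ⟨A - ∑ b ∈ S', C (eval b.rep A / eval b.rep (G b)) * G b, ?_, ?_, fun t ht => ?_⟩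
        · refine hA1.sub (IsHomogeneous.sum _ _ _ fun b hb => ?_)
          have h1 := (isHomogeneous_C (Fin (n + 1)) (eval b.rep A / eval b.rep (G b))).mul (hG1 b hb)
          rwa [zero_add] at h1
        · rw [map_sub, map_sum, sum_eq_zero fun b hb => ?_, sub_zero]
          · exact hA2
          · rw [map_mul, hG3 b hb a haL, mul_zero]
        · obtain ⟨hta, htS⟩ := mem_erase.1 ht
          rw [map_sub, map_sum]
          by_cases htL : On P Q t
          · rw [hA3 t (mem_erase.2 ⟨hta, by rw [hL, mem_filter]; exact ⟨htS, htL⟩⟩), sum_eq_zero fun b hb => ?_, sub_zero]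
            rw [map_mul, hG3 b hb t htL, mul_zero]
          · have htS' : t ∈ S' := by
              rw [hS', mem_filter]
              exact ⟨htS, htL⟩
            rw [sum_eq_single t]
            · rw [map_mul, eval_C, div_mul_cancel₀ _ (hG2 t htS'), sub_self]
            · intro b hb hbt
              rw [map_mul, hG4 b hb t htS' hbt.symm, mul_zero]
            · exact fun h => absurd htS' h
      · have haS' : a ∈ S' := by
          rw [hS', mem_filter]
          exact ⟨ha, haL⟩
        refine ⟨G a, hG1 a haS', hG2 a haS', fun t ht => ?_⟩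
        obtain ⟨hta, htS⟩ := mem_erase.1 ht
        by_cases htL : On P Q t
        · exact hG3 a haS' t htL
        · exact hG4 a haS' t (by rw [hS', mem_filter]; exact ⟨htS, htL⟩) hta
    · refine sp_small a _ ?_ (notMem_erase a S)
      rw [card_erase_of_mem ha]
      omega

/-- a form which is zero on a line and on few points -/
lemma sp_off {d : ℕ} (hd : 1 ≤ d) {P Q b : ℙ F (Fin (n + 1) → F)} (hb : ¬ On P Q b) (T : Finset (ℙ F (Fin (n + 1) → F))) (hT : T.card + 1 ≤ d)
    (hbT : b ∉ T) : ∃ G : MvPolynomial (Fin (n + 1)) F, G.IsHomogeneous d ∧ eval b.rep G ≠ 0 ∧ (∀ t, On P Q t → eval t.rep G = 0) ∧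
      ∀ t ∈ T, eval t.rep G = 0 := by
  obtain ⟨G, hG1, hG2, hG3⟩ := sp_small (D := d - 1) b T (by omega) hbT
  obtain ⟨l, hl1, hl2, hl3⟩ := hyper hb
  refine ⟨G * l, ?_, ?_, fun t ht => ?_, fun t ht => ?_⟩
  · have := hG1.mul hl1
    rwa [Nat.sub_add_cancel hd] at this
  · rw [map_mul]
    exact mul_ne_zero hG2 hl2
  · rw [map_mul, hl3 t ht, mul_zero]
  · rw [map_mul, hG3 t ht, zero_mul]

open Classical in
/-- the number of the points on a line -/
lemma card_line {F : Type} [Field F] [Fintype F] [Fintype (ℙ F (Fin (n + 1) → F))] (P Q : ℙ F (Fin (n + 1) → F)) :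
    (univ.filter (On P Q)).card ≤ Fintype.card F + 1 := by
  have key : ∀ R : ℙ F (Fin (n + 1) → F), On P Q R → ∃ o : Option F, R.rep ∈ Submodule.span F {(o.elim Q.rep fun s => P.rep + s • Q.rep)} := by
    intro R hR
    obtain ⟨a, b, hab⟩ := Submodule.mem_span_pair.1 hR
    by_cases ha : a = 0
    · refine ⟨none, ?_⟩
      rw [ha, zero_smul, zero_add] at hab
      exact Submodule.mem_span_singleton.2 ⟨b, hab⟩
    · refine ⟨some (b / a), ?_⟩
      refine Submodule.mem_span_singleton.2 ⟨a, ?_⟩
      show a • (P.rep + (b / a) • Q.rep) = R.rep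
      rw [smul_add, smul_smul, mul_div_cancel₀ _ ha, hab]
  choose! o ho using key
  have hinj : Set.InjOn o (univ.filter (On P Q) : Finset _) := by
    intro R hR R' hR' hoo
    rw [mem_coe, mem_filter] at hR hR'
    obtain ⟨a, ha⟩ := Submodule.mem_span_singleton.1 (ho R hR.2)
    obtain ⟨b, hb⟩ := Submodule.mem_span_singleton.1 (ho R' hR'.2)
    rw [← hoo] at hb
    have hb0 : b ≠ 0 := by
      rintro rfl
      rw [zero_smul] at hb
      exact R'.rep_nonzero hb.symm
    have h1 : R.rep = (a / b) • R'.rep := by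
      rw [← ha, ← hb, smul_smul, div_mul_cancel₀ _ hb0]
    rw [← R.mk_rep, ← R'.mk_rep, Projectivization.mk_eq_mk_iff']
    exact ⟨_, h1.symm⟩
  rw [← card_image_of_injOn hinj, ← Fintype.card_option]
  exact card_le_univ _

end H41N.MD
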