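import Pool.Agent.Q285.HS.Law

/-!
# The law over the primes of a local function with nearly normal moments, for almost all points of a box: all orders
-/

set_option autoImplicit false
set_option linter.unusedSectionVars false

namespace H41N.MD

open Finset Filter
open Q282.CL
open Q282.GK (kbox)
open Q282MM (gm Phi)
open Q285HS (NearN Gk Gk_abs Gk_mean FewBad VV IV lln)

variable {κ : Type} [Fintype κ] [DecidableEq κ] {H : (p : ℕ) → (κ → ZMod p) → ℝ}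

/-- **the law** -/
theorem law {β p₁ p₀ w : ℕ} {K C₀ : ℝ} (hH : NearN H (2 * w) β p₁ K) (Bad : (p : ℕ) → Set (κ → ZMod p)) (hBad : FewBad Bad p₀ C₀)
    (ε : ℝ) (hε : 0 < ε) (hε1 : ε ≤ 1) :
    ∃ κ₀ : ℝ, 0 < κ₀ ∧ ∃ C : ℝ, 1 ≤ C ∧ ∀ (S : Set ℕ) (N : κ → ℤ) (L : κ → ℕ) (T : ℝ), 0 < T → (∀ i, T ≤ L i) →
      ∀ X₀ : ℕ, 1 ≤ X₀ → ∃ E : Finset (κ → ℤ), E ⊆ kbox N L ∧ (E.card : ℝ) ≤ C * (X₀ : ℝ) ^ (-(ε / 2)) * ∏ i, (L i : ℝ) ∧
      ∀ t ∈ kbox N L, t ∉ E → ∀ Y Y' : ℕ, Y ≤ Y' → X₀ ≤ Y' → (Y' : ℝ) ≤ T ^ κ₀ →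
        (∀ k ≤ w, |∑ p ∈ VV Bad S Y Y' t, (H p (fun y => (t y : ZMod p)) ^ k - (gm k : ℝ))| ≤ C * (Y' : ℝ) ^ (1 / 2 + ε / 2)) ∧
        ((Y' : ℝ) ^ (1 / 2 + ε) ≤ (VV Bad S Y Y' t).card → ∀ M : ℕ, 1 ≤ M → 2 * M ≤ w → ∀ x : ℝ,
          |(((VV Bad S Y Y' t).filter fun p => H p (fun y => (t y : ZMod p)) ≤ x).card : ℝ) / (VV Bad S Y Y' t).card - Phi x| ≤
            4 / Real.sqrt M + C * (Y' : ℝ) ^ (-(ε / 2))) := by
  classical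
  have hemp0 : ∀ M : ℕ, ∃ C₁ : ℝ, 0 ≤ C₁ ∧ (1 ≤ M → ∀ (α : Type) (V : Finset α) (z : α → ℝ) (δ : ℝ), V.Nonempty → 0 ≤ δ →
      (∀ k ≤ 2 * M, |(∑ p ∈ V, z p ^ k) / (V.card : ℝ) - (gm k : ℝ)| ≤ δ) → ∀ x : ℝ,
        |((V.filter fun p => z p ≤ x).card : ℝ) / V.card - Phi x| ≤ 4 / Real.sqrt M + C₁ * δ) := by
    intro M
    by_cases hM : 1 ≤ M
    · obtain ⟨C₁, hC₁, hemp, _⟩ := Q282MM.emp Q282MM.fin_true M hM
      exact ⟨C₁, by linarith, fun _ α V z δ hV hδ hk x => hemp α V z δ hV hδ hk x⟩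
    · exact ⟨0, le_rfl, fun h => absurd h hM⟩
  choose Ce hCe hemp using hemp0
  obtain ⟨C₁, hC₁⟩ : ∃ C₁ : ℝ, C₁ = ∑ M ∈ range (w + 1), Ce M := ⟨_, rfl⟩
  have hC₁M : ∀ M ≤ w, Ce M ≤ C₁ := fun M hM => by
    rw [hC₁]
    exact single_le_sum (f := Ce) (fun i _ => hCe i) (mem_range.2 (by omega))
  have hC₁0 : 0 ≤ C₁ := (hCe 0).trans (hC₁M 0 (Nat.zero_le _))
  -- all the moments
  have hstep : ∀ k : ℕ, ∃ κ₀ : ℝ, 0 < κ₀ ∧ ∃ C : ℝ, 1 ≤ C ∧ (k ≤ w → ∀ (v : ℕ → ℝ), (∀ p, |v p| ≤ 1) → ∀ (N : κ → ℤ) (L : κ → ℕ) (T : ℝ),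
      0 < T → (∀ i, T ≤ L i) → ∀ X₀ : ℕ, 1 ≤ X₀ → ∃ E : Finset (κ → ℤ), E ⊆ kbox N L ∧ (E.card : ℝ) ≤ C * (X₀ : ℝ) ^ (-(ε / 2)) * ∏ i, (L i : ℝ) ∧
      ∀ t ∈ kbox N L, t ∉ E → ∀ Y Y' : ℕ, Y ≤ Y' → X₀ ≤ Y' → (Y' : ℝ) ≤ T ^ κ₀ →
        |∑ p ∈ IV Y Y', v p * (Gk H k Bad p (fun i => (t i : ZMod p)) - 0)| ≤ C * (Y' : ℝ) ^ (1 / 2 + ε / 2)) := by
    intro k
    by_cases hk : k ≤ w
    · obtain ⟨K₂, p₂, hK₂, h1⟩ := Gk_mean hH Bad hBad k (by omega)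
      have hK0 : 0 ≤ K := by linarith [hH.one]
      have hg0 : (0 : ℝ) ≤ gm k := Nat.cast_nonneg _
      have hKk : 0 ≤ K ^ k := pow_nonneg hK0 k
      have hKK : K₂ ≤ K₂ + K ^ k + gm k := by linarith
      obtain ⟨κ₀, hκ₀, C, hC, h2⟩ := lln (Gk H k Bad) (β * k) p₂ (K₂ + K ^ k + gm k) 0 (by linarith) (fun p hp u => by
          refine (Gk_abs hH k Bad p hp u).trans ?_
          refine mul_le_mul_of_nonneg_right ?_ (by positivity)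
          linarith)
        (fun p hp hpp => ((h1 p hp hpp).1).trans (div_le_div_of_nonneg_right hKK (Real.sqrt_nonneg _)))
        (fun p hp hpp => ((h1 p hp hpp).2).trans hKK) ε hε hε1
      exact ⟨κ₀, hκ₀, C, hC, fun _ => h2⟩
    · exact ⟨1, one_pos, 1, le_rfl, fun h => absurd h hk⟩
  choose κf hκf Cf hCf hstep using hstep
  obtain ⟨κ₀, hκ₀, hκmin⟩ : ∃ c : ℝ, 0 < c ∧ ∀ k ∈ range (w + 1), c ≤ κf k := by
    have : ∀ s : Finset ℕ, ∃ c : ℝ, 0 < c ∧ ∀ k ∈ s, c ≤ κf k := by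
      intro s
      induction s using Finset.induction_on with
      | empty => exact ⟨1, one_pos, fun f hf => absurd hf (notMem_empty f)⟩
      | insert x s _ ih =>
        obtain ⟨c, hc, h'⟩ := ih
        refine ⟨min c (κf x), lt_min hc (hκf x), fun y hy => ?_⟩
        rcases mem_insert.1 hy with rfl | hy
        · exact min_le_right _ _
        · exact (min_le_left _ _).trans (h' y hy)
    exact this _
  obtain ⟨C₂, hC₂⟩ : ∃ C₂ : ℝ, C₂ = ∑ k ∈ range (w + 1), Cf k := ⟨_, rfl⟩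
  have hCk : ∀ k ∈ range (w + 1), Cf k ≤ C₂ := fun k hk => by
    rw [hC₂]
    exact single_le_sum (f := Cf) (fun i _ => by linarith [hCf i]) hk
  have hC₂1 : 1 ≤ C₂ := (hCf 0).trans (hCk 0 (mem_range.2 (by omega)))
  refine ⟨κ₀, hκ₀, C₂ + C₁ * C₂, by nlinarith, fun S N L T hT hTL X₀ hX₀ => ?_⟩
  have hX₀1 : (1 : ℝ) ≤ X₀ := by exact_mod_cast hX₀
  have hE : ∀ k : ℕ, ∃ E : Finset (κ → ℤ), E ⊆ kbox N L ∧ (k ≤ w → (E.card : ℝ) ≤ Cf k * (X₀ : ℝ) ^ (-(ε / 2)) * ∏ i, (L i : ℝ) ∧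
      ∀ t ∈ kbox N L, t ∉ E → ∀ Y Y' : ℕ, Y ≤ Y' → X₀ ≤ Y' → (Y' : ℝ) ≤ T ^ (κf k) →
        |∑ p ∈ IV Y Y', (if p ∈ S then (1 : ℝ) else 0) * (Gk H k Bad p (fun i => (t i : ZMod p)) - 0)| ≤ Cf k * (Y' : ℝ) ^ (1 / 2 + ε / 2)) := by
    intro k
    by_cases hk : k ≤ w
    · obtain ⟨E, hE1, hE2, hE3⟩ := hstep k hk (fun p => if p ∈ S then (1 : ℝ) else 0) (fun p => by split_ifs <;> simp) N L T hT hTL X₀ hX₀
      exact ⟨E, hE1, fun _ => ⟨hE2, hE3⟩⟩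
    · exact ⟨∅, empty_subset _, fun h => absurd h hk⟩
  choose Ef hEf1 hEf2 using hE
  refine ⟨(range (w + 1)).biUnion Ef, ?_, ?_, ?_⟩
  · exact biUnion_subset.2 fun k _ => hEf1 k
  · refine le_trans (Nat.cast_le.2 card_biUnion_le) ?_
    push_cast
    have h1 : ∀ k ∈ range (w + 1), ((Ef k).card : ℝ) ≤ Cf k * (X₀ : ℝ) ^ (-(ε / 2)) * ∏ i, (L i : ℝ) := fun k hk =>
      (hEf2 k (by have := mem_range.1 hk; omega)).1
    refine (sum_le_sum h1).trans ?_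
    rw [← sum_mul, ← sum_mul, ← hC₂]
    have h2 : (0 : ℝ) ≤ ∏ i, (L i : ℝ) := prod_nonneg fun _ _ => Nat.cast_nonneg _
    refine mul_le_mul_of_nonneg_right (mul_le_mul_of_nonneg_right ?_ (by positivity)) h2
    nlinarith
  · intro t ht hnt Y Y' hYY hY hYT
    rw [mem_biUnion] at hnt
    push Not at hnt
    have hY1 : (1 : ℝ) ≤ Y' := by
      have : 1 ≤ Y' := hX₀.trans hY
      exact_mod_cast this
    have hY0 : (0 : ℝ) < Y' := by linarith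
    obtain ⟨V, hV⟩ : ∃ V : Finset ℕ, V = VV Bad S Y Y' t := ⟨_, rfl⟩
    rw [← hV]
    have hT1 : 1 ≤ T := by
      by_contra hlt
      push Not at hlt
      have := Real.rpow_lt_one hT.le hlt hκ₀
      linarith
    obtain ⟨z, hz⟩ : ∃ z : ℕ → ℝ, z = fun p => H p (fun y => (t y : ZMod p)) := ⟨_, rfl⟩
    have hmom0 : ∀ k ≤ w, |∑ p ∈ V, (z p ^ k - (gm k : ℝ))| ≤ C₂ * (Y' : ℝ) ^ (1 / 2 + ε / 2) := by
      intro k hk
      have hkr : k ∈ range (w + 1) := mem_range.2 (by omega)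
      have h1 := (hEf2 k hk).2 t ht (hnt k hkr) Y Y' hYY hY (hYT.trans (Real.rpow_le_rpow_of_exponent_le hT1 (hκmin k hkr)))
      have h2 : ∑ p ∈ IV Y Y', (if p ∈ S then (1 : ℝ) else 0) * (Gk H k Bad p (fun i => (t i : ZMod p)) - 0) =
          ∑ p ∈ V, (z p ^ k - (gm k : ℝ)) := by
        rw [hV]
        unfold VV
        rw [sum_filter]
        refine sum_congr rfl fun p _ => ?_
        unfold Gk
        rw [hz]
        by_cases hS : p ∈ S <;> by_cases hb : (fun x => (t x : ZMod p)) ∈ Bad p <;> simp [hS, hb]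
      rw [h2] at h1
      exact h1.trans (mul_le_mul_of_nonneg_right (hCk k hkr) (by positivity))
    refine ⟨fun k hk => ?_, fun hcard M hM hMw x => ?_⟩
    · have h1 := hmom0 k hk
      rw [hz] at h1
      refine h1.trans (mul_le_mul_of_nonneg_right ?_ (by positivity))
      nlinarith
    have hVpos : (0 : ℝ) < V.card := lt_of_lt_of_le (Real.rpow_pos_of_pos hY0 _) hcard
    have hVne : V.Nonempty := by
      rw [← card_pos]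
      exact_mod_cast hVpos
    have hmom : ∀ k ≤ 2 * M, |(∑ p ∈ V, z p ^ k) / (V.card : ℝ) - (gm k : ℝ)| ≤ C₂ * (Y' : ℝ) ^ (-(ε / 2)) := by
      intro k hk
      have h1 := hmom0 k (hk.trans hMw)
      rw [sum_sub_distrib, sum_const, nsmul_eq_mul] at h1
      have h3 : (∑ p ∈ V, z p ^ k) / (V.card : ℝ) - (gm k : ℝ) = (∑ p ∈ V, z p ^ k - V.card * (gm k : ℝ)) / V.card := by
        rw [sub_div, mul_div_cancel_left₀ _ hVpos.ne']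
      rw [h3, abs_div, abs_of_pos hVpos, div_le_iff₀ hVpos]
      refine h1.trans ?_
      have h4 : (Y' : ℝ) ^ (1 / 2 + ε / 2) = (Y' : ℝ) ^ (-(ε / 2)) * (Y' : ℝ) ^ (1 / 2 + ε) := by
        rw [← Real.rpow_add hY0]
        congr 1
        ring
      rw [h4]
      have h6 : 0 ≤ (Y' : ℝ) ^ (-(ε / 2)) := by positivity
      calc C₂ * ((Y' : ℝ) ^ (-(ε / 2)) * (Y' : ℝ) ^ (1 / 2 + ε)) ≤ C₂ * ((Y' : ℝ) ^ (-(ε / 2)) * V.card) :=
            mul_le_mul_of_nonneg_left (mul_le_mul_of_nonneg_left hcard h6) (by linarith)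
        _ = _ := by ring
    have hmain := hemp M hM ℕ V z (C₂ * (Y' : ℝ) ^ (-(ε / 2))) hVne (by positivity) hmom x
    rw [hz] at hmain
    refine hmain.trans ?_
    have h6 : 0 ≤ (Y' : ℝ) ^ (-(ε / 2)) := by positivity
    have h7 : Ce M * (C₂ * (Y' : ℝ) ^ (-(ε / 2))) ≤ (C₂ + C₁ * C₂) * (Y' : ℝ) ^ (-(ε / 2)) := by
      have h8 : Ce M * (C₂ * (Y' : ℝ) ^ (-(ε / 2))) ≤ C₁ * (C₂ * (Y' : ℝ) ^ (-(ε / 2))) :=
        mul_le_mul_of_nonneg_right (hC₁M M (by omega)) (by positivity)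
      nlinarith
    linarith

end H41N.MD
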