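import Pool.Agent.H41N.MD.Geo
import Pool.Agent.H41N.MD.Cmp

/-!
# The values of the members of a linear system at `2 d + 1` points: the relations are on lines
-/

set_option autoImplicit false
set_option linter.unusedSectionVars false

namespace H41N.MD

open Finset MvPolynomial
open Q282.CL
open Pool.Agent.Y722.HS (Mon mev)
open Q285HS (Sep sm ev ev_sum AA mem_AA Idx toFs eval_hom ph ph_abs)
open scoped LinearAlgebra.Projectivization Classical

section

variable {ι K B : Type} [AddCommGroup K] [Fintype K] [AddCommGroup B] [Fintype B] [Fintype ι]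

lemma sur_of {e : ι → K →+ B} {S : Finset ι} (h : ∀ a ∈ S, ∀ b : B, ∃ c : K, e a c = b ∧ ∀ t ∈ S, t ≠ a → e t c = 0) : Sur e S := by
  intro z
  have h1 : ∀ a : S, ∃ c : K, e a c = z a ∧ ∀ t ∈ S, t ≠ a → e t c = 0 := fun a => h a a.2 (z a)
  choose c hc1 hc2 using h1
  refine ⟨∑ a : S, c a, fun t ht => ?_⟩
  rw [map_sum, ← hc1 ⟨t, ht⟩]
  refine sum_eq_single (⟨t, ht⟩ : S) (fun a _ ha => ?_) (fun h => absurd (mem_univ _) h)
  exact hc2 a t ht fun h => ha (Subtype.ext h.symm)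

end

variable {n : ℕ} {J : Type} [Fintype J] [DecidableEq J] {d : J → ℕ} (g : J → MvPolynomial (Fin (n + 1)) ℤ) (W : Set (MvPolynomial (Fin (n + 1)) ℤ))
  (p : ℕ) [hp : Fact p.Prime]

/-- the value of the member with the coefficient form `G` of `g j` -/
lemma ev_form (j : J) (G : MvPolynomial (Fin (n + 1)) (ZMod p)) (hG : G.IsHomogeneous (d j)) (s : ZMod p) :
    ∃ c : Idx n d → ZMod p, ∀ P : ℙ (ZMod p) (Fin (n + 1) → ZMod p), ev (d := d) g p P c = s * (aeval P.rep (g j) * eval P.rep G) := by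
  refine ⟨fun x => ∑ ν : Mon n (d j), if x = ⟨j, ν⟩ then s * G.coeff (toFs ν) else 0, fun P => ?_⟩
  rw [ev_sum, eval_hom G hG]
  simp only [sum_mul, ite_mul, zero_mul]
  rw [sum_comm]
  simp only [sum_ite_eq', mem_univ, if_true]
  rw [mul_sum, mul_sum]
  exact sum_congr rfl fun ν _ => by ring

/-- the value `b` at `a`, zero where `G` is zero -/
lemma ev_pt {a : ℙ (ZMod p) (Fin (n + 1) → ZMod p)} (ha : a ∈ AA g W p) (b : ZMod p)
    (Z : Set (ℙ (ZMod p) (Fin (n + 1) → ZMod p)))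
    (hG : ∀ j, ∃ G : MvPolynomial (Fin (n + 1)) (ZMod p), G.IsHomogeneous (d j) ∧ eval a.rep G ≠ 0 ∧ ∀ t ∈ Z, eval t.rep G = 0) :
    ∃ c : Idx n d → ZMod p, ev (d := d) g p a c = b ∧ ∀ t ∈ Z, ev (d := d) g p t c = 0 := by
  obtain ⟨_, j, hj⟩ := (mem_AA p).1 ha
  obtain ⟨G, hG1, hG2, hG3⟩ := hG j
  obtain ⟨c, hc⟩ := ev_form g p j G hG1 (b / (aeval a.rep (g j) * eval a.rep G))
  refine ⟨c, ?_, fun t ht => ?_⟩
  · rw [hc, div_mul_cancel₀ _ (mul_ne_zero hj hG2)]
  · rw [hc, hG3 t ht, mul_zero, mul_zero]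

/-- the lines through two points of `A` -/
noncomputable def LL : Finset (Finset (ℙ (ZMod p) (Fin (n + 1) → ZMod p))) :=
  (AA g W p).offDiag.image fun x => (AA g W p).filter (On x.1 x.2)

variable {g W p}

lemma mem_LL {L : Finset (ℙ (ZMod p) (Fin (n + 1) → ZMod p))} :
    L ∈ LL g W p ↔ ∃ P ∈ AA g W p, ∃ Q ∈ AA g W p, P ≠ Q ∧ L = (AA g W p).filter (On P Q) := by
  unfold LL
  rw [mem_image]
  constructor
  · rintro ⟨⟨P, Q⟩, h1, h2⟩
    obtain ⟨hP, hQ, hne⟩ := mem_offDiag.1 h1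
    exact ⟨P, hP, Q, hQ, hne, h2.symm⟩
  · rintro ⟨P, hP, Q, hQ, hne, h⟩
    exact ⟨(P, Q), mem_offDiag.2 ⟨hP, hQ, hne⟩, h.symm⟩

/-- two lines with two common points are equal -/
lemma LL_eq {L L' : Finset (ℙ (ZMod p) (Fin (n + 1) → ZMod p))} (hL : L ∈ LL g W p) (hL' : L' ∈ LL g W p)
    {A B : ℙ (ZMod p) (Fin (n + 1) → ZMod p)} (hAB : A ≠ B) (hA : A ∈ L) (hB : B ∈ L) (hA' : A ∈ L') (hB' : B ∈ L') : L = L' := by
  obtain ⟨P, _, Q, _, hne, rfl⟩ := mem_LL.1 hL
  obtain ⟨P', _, Q', _, hne', rfl⟩ := mem_LL.1 hL'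
  ext R
  rw [mem_filter, mem_filter, ← on_iff hne hAB (mem_filter.1 hA).2 (mem_filter.1 hB).2 R, on_iff hne' hAB (mem_filter.1 hA').2 (mem_filter.1 hB').2 R]

lemma LL_two {L : Finset (ℙ (ZMod p) (Fin (n + 1) → ZMod p))} (hL : L ∈ LL g W p) : 2 ≤ L.card := by
  obtain ⟨P, hP, Q, hQ, hne, rfl⟩ := mem_LL.1 hL
  have h1 : ({P, Q} : Finset _) ⊆ (AA g W p).filter (On P Q) := by
    intro x hx
    rw [mem_insert, mem_singleton] at hx
    rw [mem_filter]
    rcases hx with rfl | rfl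
    · exact ⟨hP, on_left _ _⟩
    · exact ⟨hQ, on_right _ _⟩
  have h2 := card_le_card h1
  rwa [card_pair hne] at h2

lemma LL_card {L : Finset (ℙ (ZMod p) (Fin (n + 1) → ZMod p))} (hL : L ∈ LL g W p) : L.card ≤ 2 * p := by
  obtain ⟨P, hP, Q, hQ, hne, rfl⟩ := mem_LL.1 hL
  have h1 : (AA g W p).filter (On P Q) ⊆ univ.filter (On P Q) := filter_subset_filter _ (subset_univ _)
  have h2 := (card_le_card h1).trans (card_line P Q)
  rw [ZMod.card] at h2
  have := hp.out.one_lt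
  omega

lemma LL_sum : ∑ L ∈ LL g W p, L.card ^ 2 ≤ 2 * (AA g W p).card ^ 2 := by
  have h1 : ∀ L ∈ LL g W p, L.card ^ 2 ≤ 2 * L.offDiag.card := by
    intro L hL
    have h2 := LL_two hL
    rw [offDiag_card]
    obtain ⟨m, hm⟩ : ∃ m, L.card = m + 2 := ⟨L.card - 2, by omega⟩
    rw [hm]
    have : (m + 2) * (m + 2) - (m + 2) = (m + 2) * (m + 1) := by
      rw [Nat.sub_eq_iff_eq_add (by nlinarith)]
      ring
    rw [this]
    nlinarith
  refine (sum_le_sum h1).trans ?_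
  rw [← mul_sum]
  refine Nat.mul_le_mul_left 2 ?_
  rw [← card_biUnion]
  · refine (card_le_card (t := (AA g W p).offDiag) ?_).trans ?_
    · refine biUnion_subset.2 fun L hL => ?_
      obtain ⟨P, hP, Q, hQ, hne, rfl⟩ := mem_LL.1 hL
      exact offDiag_mono (filter_subset _ _)
    · rw [offDiag_card, pow_two]
      exact Nat.sub_le _ _
  · intro L hL L' hL' hne
    show Disjoint L.offDiag L'.offDiag
    rw [disjoint_left]
    rintro ⟨A, B⟩ h2 h3
    obtain ⟨hA, hB, hAB⟩ := mem_offDiag.1 h2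
    obtain ⟨hA', hB', _⟩ := mem_offDiag.1 h3
    exact hne (LL_eq hL hL' hAB hA hB hA' hB')

/-- **the relations are on lines** -/
theorem qs {d₀ : ℕ} (hd₀ : 1 ≤ d₀) (hd : ∀ j, d₀ ≤ d j) : Qs (ev (d := d) g p) (AA g W p) (LL g W p) (d₀ + 1) (2 * d₀ + 1) := by
  refine ⟨fun L hL => ?_, fun S hS hM hl => ?_, fun S hS hM L hL hr z => ?_, fun S hS hM L hL L' hL' hr hr' => ?_⟩
  · obtain ⟨P, hP, Q, hQ, hne, rfl⟩ := mem_LL.1 hL
    exact filter_subset _ _
  · refine sur_of fun a ha b => ?_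
    have hG : ∀ j, ∃ G : MvPolynomial (Fin (n + 1)) (ZMod p), G.IsHomogeneous (d j) ∧ eval a.rep G ≠ 0 ∧
        ∀ t ∈ ({t | t ∈ S ∧ t ≠ a} : Set (ℙ (ZMod p) (Fin (n + 1) → ZMod p))), eval t.rep G = 0 := by
      intro j
      have hj := hd j
      obtain ⟨G, hG1, hG2, hG3⟩ := sep_line (d j) S (by omega) (fun P hP Q hQ hne => by
        have h1 : S.filter (On P Q) ⊆ S ∩ (AA g W p).filter (On P Q) := by
          intro x hx
          rw [mem_filter] at hx
          exact mem_inter.2 ⟨hx.1, mem_filter.2 ⟨hS hx.1, hx.2⟩⟩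
        have h2 := (card_le_card h1).trans (hl _ (mem_LL.2 ⟨P, hS hP, Q, hS hQ, hne, rfl⟩))
        exact h2.trans (by omega)) a ha
      refine ⟨G, hG1, hG2, fun t ht => hG3 t ?_⟩
      exact mem_erase.2 ⟨ht.2, ht.1⟩
    obtain ⟨c, hc1, hc2⟩ := ev_pt (d := d) g W p (hS ha) b _ hG
    exact ⟨c, hc1, fun t ht hta => hc2 t ⟨ht, hta⟩⟩
  · obtain ⟨P, hP, Q, hQ, hne, hLe⟩ := mem_LL.1 hL
    have hcard : (S ∩ L).card + (S \ L).card = S.card := by
      rw [card_inter_add_card_sdiff]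
    have h1 : ∀ b : ↥(S \ L), ∃ c : Idx n d → ZMod p, ev (d := d) g p b c = z b ∧
        ∀ t ∈ ({t | t ∈ S ∩ L ∨ (t ∈ S \ L ∧ t ≠ b)} : Set (ℙ (ZMod p) (Fin (n + 1) → ZMod p))), ev (d := d) g p t c = 0 := by
      intro b
      obtain ⟨hbS, hbL⟩ := mem_sdiff.1 b.2
      refine ev_pt (d := d) g W p (hS hbS) (z b) _ fun j => ?_
      have hj := hd j
      have hoff : ¬ On P Q b.1 := by
        intro h
        have h5 : b.1 ∈ (AA g W p).filter (On P Q) := mem_filter.2 ⟨hS hbS, h⟩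
        have h6 : ∀ x, x ∈ (AA g W p).filter (On P Q) → x ∈ L := fun x hx => by
          rw [hLe]
          exact hx
        exact hbL (h6 _ h5)
      obtain ⟨G, hG1, hG2, hG3, hG4⟩ := sp_off (d := d j) (by omega) hoff ((S \ L).erase b) (by
        rw [card_erase_of_mem b.2]
        omega) (notMem_erase _ _)
      refine ⟨G, hG1, hG2, fun t ht => ?_⟩
      rcases ht with ht | ⟨ht, htb⟩
      · refine hG3 t ?_
        have h2 := (mem_inter.1 ht).2
        have h6 : ∀ x, x ∈ L → On P Q x := fun x hx => by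
          rw [hLe, mem_filter] at hx
          exact hx.2
        exact h6 _ h2
      · exact hG4 t (mem_erase.2 ⟨htb, ht⟩)
    choose c hc1 hc2 using h1
    refine ⟨∑ b : ↥(S \ L), c b, fun t ht => ?_, fun t ht => ?_⟩
    · rw [map_sum]
      exact sum_eq_zero fun b _ => hc2 b t (Or.inl ht)
    · rw [map_sum, ← hc1 ⟨t, ht⟩]
      refine sum_eq_single (⟨t, ht⟩ : ↥(S \ L)) (fun a _ ha => ?_) (fun h => absurd (mem_univ _) h)
      exact hc2 a t (Or.inr ⟨ht, fun h => ha (Subtype.ext h.symm)⟩)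
  · have h1 : 1 < (S ∩ L ∩ L').card := by
      have h2 := card_union_add_card_inter (S ∩ L) (S ∩ L')
      have h3 : (S ∩ L ∪ S ∩ L').card ≤ S.card := card_le_card (union_subset inter_subset_left inter_subset_left)
      have h4 : (S ∩ L) ∩ (S ∩ L') ⊆ S ∩ L ∩ L' := by
        intro x hx
        simp only [mem_inter] at hx ⊢
        tauto
      have h5 := card_le_card h4
      omega
    obtain ⟨A, hA, B, hB, hAB⟩ := one_lt_card.1 h1
    simp only [mem_inter] at hA hB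
    exact LL_eq hL hL' hAB hA.1.2 hB.1.2 hA.2 hB.2

lemma av_ph (p : ℕ) [hp : Fact p.Prime] : av (fun z => |ph p z|) ≤ 2 / p := by
  have hp0 : (0 : ℝ) < p := by exact_mod_cast hp.out.pos
  have hp1 : (1 : ℝ) ≤ p := by exact_mod_cast hp.out.one_lt.le
  have h1 : ∀ z : ZMod p, |ph p z| ≤ (if z = 0 then 1 else 0) + 1 / (p : ℝ) := by
    intro z
    have h2 : 0 ≤ 1 / (p : ℝ) := by positivity
    have h3 : 1 / (p : ℝ) ≤ 1 := by
      rw [div_le_one hp0]
      exact hp1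
    unfold ph
    split_ifs
    · rw [abs_of_nonneg (by linarith)]
      linarith
    · rw [zero_sub, abs_neg, abs_of_nonneg h2]
      linarith
  refine (av_mono h1).trans ?_
  unfold av
  rw [sum_add_distrib, sum_ite_eq' univ 0 (fun _ => (1 : ℝ)), sum_const, card_univ, ZMod.card]
  simp only [mem_univ, if_true, nsmul_eq_mul]
  have h2 : (1 + (p : ℝ) * (1 / p)) / p = 2 / p := by
    field_simp
    norm_num
  rw [h2]

end H41N.MD
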